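import Pool.Agent.Helper54_Toeplitz.TN

set_option autoImplicit false

namespace Pool.Agent.Helper54_Toeplitz

open Matrix

/-- Submatrix of a doubly infinite matrix. -/
def mt (a : ℤ → ℤ → ℝ) {s t : ℕ} (i : Fin s → ℤ) (j : Fin t → ℤ) : Matrix (Fin s) (Fin t) ℝ :=
  of fun p q => a (i p) (j q)

@[simp] lemma mt_apply (a : ℤ → ℤ → ℝ) {s t : ℕ} (i : Fin s → ℤ) (j : Fin t → ℤ) (p : Fin s)
    (q : Fin t) : mt a i j p q = a (i p) (j q) := rfl

lemma mt_submatrix (a : ℤ → ℤ → ℝ) {s t s' t' : ℕ} (i : Fin s → ℤ) (j : Fin t → ℤ)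
    (f : Fin s' → Fin s) (g : Fin t' → Fin t) :
    (mt a i j).submatrix f g = mt a (i ∘ f) (j ∘ g) := rfl

/-- Total nonnegativity of the block with rows `[x0, x1]` and columns `[y0, y1]`. -/
def TNB (a : ℤ → ℤ → ℝ) (x0 x1 y0 y1 : ℤ) : Prop :=
  ∀ (s : ℕ) (i j : Fin s → ℤ), StrictMono i → StrictMono j → (∀ p, x0 ≤ i p ∧ i p ≤ x1) →
    (∀ q, y0 ≤ j q ∧ j q ≤ y1) → 0 ≤ (mt a i j).det

lemma TNB.mono {a : ℤ → ℤ → ℝ} {x0 x1 y0 y1 x0' x1' y0' y1' : ℤ} (h : TNB a x0 x1 y0 y1)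
    (h1 : x0 ≤ x0') (h2 : x1' ≤ x1) (h3 : y0 ≤ y0') (h4 : y1' ≤ y1) : TNB a x0' x1' y0' y1' :=
  fun s i j hi hj hx hy => h s i j hi hj
    (fun p => ⟨h1.trans (hx p).1, (hx p).2.trans h2⟩)
    (fun p => ⟨h3.trans (hy p).1, (hy p).2.trans h4⟩)

lemma TNB.transpose {a : ℤ → ℤ → ℝ} {x0 x1 y0 y1 : ℤ} (h : TNB a x0 x1 y0 y1) :
    TNB (fun x y => a y x) y0 y1 x0 x1 := by
  intro s i j hi hj hx hy
  have := h s j i hj hi hy hx
  rw [← det_transpose] at this
  exact this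

lemma mt_det_transpose (a : ℤ → ℤ → ℝ) {s : ℕ} (i j : Fin s → ℤ) :
    (mt (fun x y => a y x) i j).det = (mt a j i).det := by
  rw [← det_transpose]; rfl

lemma exists_insert {s : ℕ} (I : Fin (s + 1) → ℤ) (hI : StrictMono I) (v : ℤ) (h0 : I 0 < v)
    (h1 : v < I (Fin.last s)) (hv : ∀ p, I p ≠ v) :
    ∃ (k : Fin (s + 2)) (ρ : Fin (s + 2) → ℤ), k ≠ 0 ∧ k ≠ Fin.last (s + 1) ∧ StrictMono ρ ∧
      ρ k = v ∧ ρ ∘ k.succAbove = I := by
  classical
  let S : Finset (Fin (s + 1)) := Finset.univ.filter fun p => I p < v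
  have hS : S.Nonempty := ⟨0, by simp [S, h0]⟩
  set p := S.max' hS with hp
  have hpS : I p < v := by
    have := S.max'_mem hS
    rw [← hp] at this
    simpa [S] using this
  have hpl : p ≠ Fin.last s := fun h => by rw [h] at hpS; exact absurd hpS (not_lt.2 h1.le)
  refine ⟨p.succ, p.succ.insertNth (α := fun _ => ℤ) v I, Fin.succ_ne_zero p, ?_, ?_, by simp, ?_⟩
  · intro h
    apply hpl
    apply Fin.succ_injective
    rw [h, Fin.succ_last]
  · rw [Fin.strictMono_insertNth_iff]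
    refine ⟨hI, ?_, ?_⟩
    · intro i hi
      have : i ≤ p := by
        rw [Fin.lt_def] at hi; rw [Fin.le_def]
        simp at hi; omega
      exact (hI.monotone this).trans_lt hpS
    · intro i hi
      have hlt : p < i := by
        rw [Fin.le_def] at hi; rw [Fin.lt_def]
        simp at hi; omega
      have : ¬ I i < v := fun h => by
        have : i ∈ S := by simp [S, h]
        exact absurd (S.le_max' i this) (not_le.2 hlt)
      exact lt_of_le_of_ne (not_lt.1 this) (hv i).symm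
  · funext i
    simp

lemma strictMono_bounds {s : ℕ} {I : Fin (s + 1) → ℤ} (hI : StrictMono I) (p : Fin (s + 1)) :
    I 0 ≤ I p ∧ I p ≤ I (Fin.last s) :=
  ⟨hI.monotone (Fin.zero_le p), hI.monotone (Fin.le_last p)⟩

/-- First step: the column relation of a singular minor extends to all rows in between. -/
lemma step1 (a : ℤ → ℤ → ℝ) {s : ℕ} (I J : Fin (s + 1) → ℤ) (hI : StrictMono I)
    (hJ : StrictMono J) (hTN : TNB a (I 0) (I (Fin.last s)) (J 0) (J (Fin.last s)))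
    (h0 : (mt a I J).det = 0)
    (h1 : (mt a (I ∘ Fin.castSucc) (J ∘ Fin.castSucc)).det ≠ 0)
    (h2 : (mt a (I ∘ Fin.succ) (J ∘ Fin.succ)).det ≠ 0) :
    ∃ μ : Fin (s + 1) → ℝ, 0 < μ 0 ∧ 0 < μ (Fin.last s) ∧
      μ 0 = (mt a (I ∘ Fin.castSucc) (J ∘ Fin.succ)).det ∧
      ∀ v, I 0 ≤ v → v ≤ I (Fin.last s) → ∑ q : Fin (s + 1), a v (J q) * ((-1) ^ (q : ℕ) * μ q) = 0 := by
  classical
  have hbI : ∀ {t : ℕ} (f : Fin t → Fin (s + 1)), ∀ p, I 0 ≤ (I ∘ f) p ∧
      (I ∘ f) p ≤ I (Fin.last s) := fun f p => strictMono_bounds hI (f p)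
  have hbJ : ∀ {t : ℕ} (f : Fin t → Fin (s + 1)), ∀ p, J 0 ≤ (J ∘ f) p ∧
      (J ∘ f) p ≤ J (Fin.last s) := fun f p => strictMono_bounds hJ (f p)
  let μ : Fin (s + 1) → ℝ := fun q => (mt a (I ∘ Fin.castSucc) (J ∘ q.succAbove)).det
  have hμ0 : ∀ q, 0 ≤ μ q := fun q => hTN _ _ _ (hI.comp Fin.strictMono_castSucc)
    (hJ.comp (Fin.strictMono_succAbove q)) (hbI _) (hbJ _)
  have hμl : 0 < μ (Fin.last s) := by
    refine lt_of_le_of_ne (hμ0 _) (Ne.symm ?_)
    simp only [μ, Fin.succAbove_last]; exact h1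
  have hIμ : ∀ p, ∑ q : Fin (s + 1), a (I p) (J q) * ((-1) ^ (q : ℕ) * μ q) = 0 := by
    intro p
    refine Fin.lastCases ?_ (fun p' => ?_) p
    · have h3 := h0
      rw [det_succ_row _ (Fin.last s)] at h3
      have h4 : ∑ q : Fin (s + 1), a (I (Fin.last s)) (J q) * ((-1) ^ (q : ℕ) * μ q) =
          (-1) ^ s * ∑ j : Fin (s + 1), (-1) ^ ((Fin.last s : ℕ) + (j : ℕ)) * mt a I J (Fin.last s) j *
            ((mt a I J).submatrix (Fin.last s).succAbove j.succAbove).det := by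
        rw [Finset.mul_sum]
        refine Finset.sum_congr rfl fun q _ => ?_
        simp only [Fin.val_last, Fin.succAbove_last, mt_submatrix, mt_apply, μ, pow_add]
        have hs : ((-1 : ℝ)) ^ s * (-1) ^ s = 1 := by rw [← mul_pow]; simp
        linear_combination (-(a (I (Fin.last s)) (J q) * (-1) ^ (q : ℕ) *
          (mt a (I ∘ Fin.castSucc) (J ∘ q.succAbove)).det)) * hs
      rw [h4, h3, mul_zero]
    · have h3 := minors_kernel (mt a (I ∘ Fin.castSucc) J) p'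
      rw [← h3]
      refine Finset.sum_congr rfl fun q _ => ?_
      simp only [mt_submatrix, mt_apply, μ, Function.comp_apply, Function.comp_id]
      ring
  have hμ00 : 0 < μ 0 := by
    refine lt_of_le_of_ne (hμ0 _) (Ne.symm ?_)
    intro hz
    rcases s with _ | s
    · exact hμl.ne' hz
    · apply h2
      rw [← exists_mulVec_eq_zero_iff]
      refine ⟨fun q => (-1) ^ ((q.succ : Fin (s + 2)) : ℕ) * μ q.succ, ?_, ?_⟩
      · intro h
        have := congrFun h (Fin.last s)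
        simp only [Fin.succ_last, Pi.zero_apply] at this
        rcases mul_eq_zero.1 this with h | h
        · exact absurd h (by positivity)
        · exact hμl.ne' h
      · funext p
        have := hIμ p.succ
        rw [Fin.sum_univ_succ, hz] at this
        simp only [mul_zero, zero_add] at this
        exact this
  refine ⟨μ, hμ00, hμl, by simp [μ, Fin.succAbove_zero], ?_⟩
  intro v hv0 hv1
  by_cases hvI : ∃ p, I p = v
  · obtain ⟨p, rfl⟩ := hvI
    exact hIμ p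
  push Not at hvI
  have hv0' : I 0 < v := lt_of_le_of_ne hv0 (hvI 0)
  have hv1' : v < I (Fin.last s) := lt_of_le_of_ne hv1 (hvI _).symm
  obtain ⟨k, ρ, hk0, hkl, hρ, hρk, hρI⟩ := exists_insert I hI v hv0' hv1' hvI
  have hsl : s ≠ 0 := by
    rintro rfl
    exact absurd (hv0'.trans hv1') (by simp)
  set β := ∑ q : Fin (s + 1), a v (J q) * ((-1) ^ (q : ℕ) * μ q) with hβ
  have hρb : ∀ p, I 0 ≤ ρ p ∧ ρ p ≤ I (Fin.last s) := by
    intro p
    rcases Fin.eq_self_or_eq_succAbove k p with rfl | ⟨p', rfl⟩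
    · rw [hρk]; exact ⟨hv0, hv1⟩
    · have : ρ (k.succAbove p') = I p' := congrFun hρI p'
      rw [this]; exact strictMono_bounds hI p'
  have hρval : ∀ p : Fin (s + 2), p ≠ k → ∑ q : Fin (s + 1), a (ρ p) (J q) *
      ((-1) ^ (q : ℕ) * μ q) = 0 := by
    intro p hp
    rcases Fin.eq_self_or_eq_succAbove k p with rfl | ⟨p', rfl⟩
    · exact absurd rfl hp
    · have : ρ (k.succAbove p') = I p' := congrFun hρI p'
      rw [this]; exact hIμ p'
  obtain ⟨k', hk'⟩ := Fin.exists_succ_eq.2 hk0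
  obtain ⟨k'', hk''⟩ := Fin.exists_castSucc_eq.2 hkl
  have hval : (k'' : ℕ) = k' + 1 := by
    have := congrArg Fin.val (hk''.trans hk'.symm); simpa using this
  -- `X1`
  have hX1 : (mt a (ρ ∘ Fin.castSucc) J) *ᵥ (fun q => (-1) ^ (q : ℕ) * μ q) =
      Pi.single k'' β := by
    funext p
    by_cases hp : p = k''
    · subst hp
      rw [Pi.single_eq_same, hβ]
      simp only [mulVec, dotProduct, mt_apply, Function.comp_apply, hk'', hρk]
    · rw [Pi.single_eq_of_ne hp]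
      exact hρval p.castSucc (fun h => hp (Fin.castSucc_injective _ (h.trans hk''.symm)))
  have hX2 : (mt a (ρ ∘ Fin.succ) J) *ᵥ (fun q => (-1) ^ (q : ℕ) * μ q) =
      Pi.single k' β := by
    funext p
    by_cases hp : p = k'
    · subst hp
      rw [Pi.single_eq_same, hβ]
      simp only [mulVec, dotProduct, mt_apply, Function.comp_apply, hk', hρk]
    · rw [Pi.single_eq_of_ne hp]
      exact hρval p.succ (fun h => hp (Fin.succ_injective _ (h.trans hk'.symm)))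
  have c1 := cramer_single _ _ _ _ hX1 (Fin.last s)
  have c2 := cramer_single _ _ _ _ hX2 0
  have r1 : (ρ ∘ Fin.castSucc) ∘ k''.succAbove = I ∘ Fin.castSucc := by
    funext p
    rw [← hρI, ← hk'']
    simp only [Function.comp_apply, Fin.castSucc_succAbove_castSucc]
  have r2 : (ρ ∘ Fin.succ) ∘ k'.succAbove = I ∘ Fin.succ := by
    funext p
    rw [← hρI, ← hk']
    simp only [Function.comp_apply, Fin.succ_succAbove_succ]
  rw [mt_submatrix, r1, Fin.succAbove_last] at c1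
  rw [mt_submatrix, r2, Fin.succAbove_zero] at c2
  have hd1 : 0 ≤ (mt a (ρ ∘ Fin.castSucc) J).det :=
    hTN _ _ _ (hρ.comp Fin.strictMono_castSucc) hJ (fun p => hρb _) (fun q => strictMono_bounds hJ q)
  have hd2 : 0 ≤ (mt a (ρ ∘ Fin.succ) J).det :=
    hTN _ _ _ (hρ.comp Fin.strictMono_succ) hJ (fun p => hρb _) (fun q => strictMono_bounds hJ q)
  have hm1 : 0 < (mt a (I ∘ Fin.castSucc) (J ∘ Fin.castSucc)).det :=
    lt_of_le_of_ne (hTN _ _ _ (hI.comp Fin.strictMono_castSucc) (hJ.comp Fin.strictMono_castSucc)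
      (hbI _) (hbJ _)) h1.symm
  have hm2 : 0 < (mt a (I ∘ Fin.succ) (J ∘ Fin.succ)).det :=
    lt_of_le_of_ne (hTN _ _ _ (hI.comp Fin.strictMono_succ) (hJ.comp Fin.strictMono_succ)
      (hbI _) (hbJ _)) h2.symm
  have hμl' : μ (Fin.last s) = (mt a (I ∘ Fin.castSucc) (J ∘ Fin.castSucc)).det := by
    simp only [μ, Fin.succAbove_last]
  rw [hμl', pow_add] at c1
  simp only [Fin.val_last] at c1
  simp only [Fin.val_zero, pow_zero, one_mul, add_zero] at c2
  have hs : ((-1 : ℝ)) ^ s * (-1) ^ s = 1 := by rw [← mul_pow]; simp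
  have hkk : ((-1 : ℝ)) ^ (k' : ℕ) * (-1) ^ (k' : ℕ) = 1 := by rw [← mul_pow]; simp
  rw [hval, pow_succ] at c1
  set σ : ℝ := (-1) ^ (k' : ℕ)
  set D1 := (mt a (ρ ∘ Fin.castSucc) J).det
  set D2 := (mt a (ρ ∘ Fin.succ) J).det
  set m1 := (mt a (I ∘ Fin.castSucc) (J ∘ Fin.castSucc)).det
  set m2 := (mt a (I ∘ Fin.succ) (J ∘ Fin.succ)).det
  have e1 : D1 * m1 = -(β * σ) * m1 := by
    linear_combination (-1 : ℝ) ^ s * c1 - (D1 * m1 + β * σ * m1) * hs
  have e1' : D1 = -(β * σ) := mul_right_cancel₀ hm1.ne' e1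
  have e2 : 0 ≤ β * σ := by
    have : 0 ≤ (β * σ) * m2 := by
      rw [mul_assoc, ← c2]; exact mul_nonneg hd2 hμ00.le
    exact nonneg_of_mul_nonneg_left this hm2
  have e3 : β * σ = 0 := by linarith
  have hσ : σ ≠ 0 := fun h => by rw [h] at hkk; simp at hkk
  rcases mul_eq_zero.1 e3 with h | h
  · exact h
  · exact absurd h hσ

end Pool.Agent.Helper54_Toeplitz
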