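import Pool.Agent.Helper54_Toeplitz.Block

set_option autoImplicit false

namespace Pool.Agent.Helper54_Toeplitz

open Matrix

/-- A row relation valid in the singular situation gives a signed determinant. -/
lemma signed_det (a : ℤ → ℤ → ℝ) {s : ℕ} (R C : Fin (s + 1) → ℤ) (I' J' : Fin s → ℤ)
    (k l : Fin (s + 1)) (hR : R ∘ k.succAbove = I') (hC : C ∘ l.succAbove = J')
    (α : Fin s → ℝ) (S : ℝ)
    (hS : a (R k) (C l) - ∑ p, α p * a (I' p) (C l) = S)
    (h0 : ∀ q, a (R k) (J' q) - ∑ p, α p * a (I' p) (J' q) = 0) :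
    (mt a R C).det = S * ((-1) ^ ((l : ℕ) + k) * (mt a I' J').det) := by
  let x : Fin (s + 1) → ℝ := k.insertNth (α := fun _ => ℝ) 1 (fun p => - α p)
  have hx : (mt a R C)ᵀ *ᵥ x = Pi.single l S := by
    funext q
    have e : ((mt a R C)ᵀ *ᵥ x) q = a (R k) (C q) - ∑ p, α p * a (I' p) (C q) := by
      change ∑ p : Fin (s + 1), a (R p) (C q) * x p = _
      rw [Fin.sum_univ_succAbove _ k]
      have : ∀ p, R (k.succAbove p) = I' p := fun p => congrFun hR p
      simp only [x, Fin.insertNth_apply_same, Fin.insertNth_apply_succAbove, this]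
      rw [sub_eq_add_neg, ← Finset.sum_neg_distrib]
      congr 1
      · ring
      · exact Finset.sum_congr rfl fun p _ => by ring
    rw [e]
    rcases Fin.eq_self_or_eq_succAbove l q with rfl | ⟨q', rfl⟩
    · rw [Pi.single_eq_same, hS]
    · rw [Pi.single_eq_of_ne (Fin.succAbove_ne l q')]
      have : C (l.succAbove q') = J' q' := congrFun hC q'
      rw [this]; exact h0 q'
  have c := cramer_single _ _ _ _ hx k
  have h1 : x k = 1 := by simp [x]
  rw [h1, mul_one, det_transpose] at c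
  rw [c]
  have : ((mt a R C)ᵀ.submatrix l.succAbove k.succAbove).det = (mt a I' J').det := by
    rw [← det_transpose]
    have : ((mt a R C)ᵀ.submatrix l.succAbove k.succAbove)ᵀ =
      mt a (R ∘ k.succAbove) (C ∘ l.succAbove) := by ext p q; rfl
    rw [this, hR, hC]
  rw [this]

/-- If a minor of a TN matrix vanishes but its two principal neighbours of corank one do not,
then the whole block spanned by it has no nonvanishing minor of the same size. -/
theorem block_minors_zero (a : ℤ → ℤ → ℝ) {s : ℕ} (I J : Fin (s + 1) → ℤ) (hI : StrictMono I)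
    (hJ : StrictMono J) (hTN : TNB a (I 0) (I (Fin.last s)) (J 0) (J (Fin.last s)))
    (h0 : (mt a I J).det = 0)
    (h1 : (mt a (I ∘ Fin.castSucc) (J ∘ Fin.castSucc)).det ≠ 0)
    (h2 : (mt a (I ∘ Fin.succ) (J ∘ Fin.succ)).det ≠ 0)
    (K L : Fin (s + 1) → ℤ) (hK : ∀ p, I 0 ≤ K p ∧ K p ≤ I (Fin.last s))
    (hL : ∀ q, J 0 ≤ L q ∧ L q ≤ J (Fin.last s)) :
    (mt a K L).det = 0 := by
  classical
  obtain ⟨μ, hμ0, hμl, hμeq, hμ⟩ := step1 a I J hI hJ hTN h0 h1 h2
  obtain ⟨ν, hν0, hνl, -, hν⟩ := step1 (fun x y => a y x) J I hJ hI hTN.transpose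
    (by rw [mt_det_transpose]; exact h0) (by rw [mt_det_transpose]; exact h1)
    (by rw [mt_det_transpose]; exact h2)
  have hbI := fun p => strictMono_bounds hI p
  have hbJ := fun p => strictMono_bounds hJ p
  have hone : ((-1 : ℝ)) ^ s * (-1) ^ s = 1 := by rw [← mul_pow]; simp
  -- every row is a combination of the first `s` rows
  have key : ∀ v, I 0 ≤ v → v ≤ I (Fin.last s) → ∃ α : Fin s → ℝ, ∀ w, J 0 ≤ w →
      w ≤ J (Fin.last s) → a v w = ∑ p, α p * a (I p.castSucc) w := by
    intro v hv0 hv1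
    by_cases hvI : ∃ p, I p = v
    · obtain ⟨p, rfl⟩ := hvI
      by_cases hp : p = Fin.last s
      · subst hp
        refine ⟨fun p => - ((-1) ^ s * (((-1) ^ (p : ℕ) * ν p.castSucc) / ν (Fin.last s))), ?_⟩
        intro w hw0 hw1
        have := hν w hw0 hw1
        rw [Fin.sum_univ_castSucc] at this
        simp only [Fin.val_last, Fin.val_castSucc] at this
        have e : ∑ p : Fin s, - ((-1) ^ s * (((-1) ^ (p : ℕ) * ν p.castSucc) / ν (Fin.last s))) *
            a (I p.castSucc) w = - ((-1) ^ s / ν (Fin.last s)) *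
            ∑ p : Fin s, a (I p.castSucc) w * ((-1) ^ (p : ℕ) * ν p.castSucc) := by
          rw [Finset.mul_sum]
          exact Finset.sum_congr rfl fun p _ => by ring
        rw [e]
        have e2 : ∑ p : Fin s, a (I p.castSucc) w * ((-1) ^ (p : ℕ) * ν p.castSucc) =
            - (a (I (Fin.last s)) w * ((-1) ^ s * ν (Fin.last s))) := by linarith
        rw [e2]
        have hne := hνl.ne'
        field_simp
        linear_combination (-(a (I (Fin.last s)) w)) * hone
      · obtain ⟨p', rfl⟩ := Fin.exists_castSucc_eq.2 hp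
        refine ⟨Pi.single p' 1, fun w _ _ => ?_⟩
        rw [Finset.sum_eq_single p']
        · simp
        · intro b _ hb; rw [Pi.single_eq_of_ne hb, zero_mul]
        · intro h; exact absurd (Finset.mem_univ _) h
    push Not at hvI
    have hv0' : I 0 < v := lt_of_le_of_ne hv0 (hvI 0)
    have hv1' : v < I (Fin.last s) := lt_of_le_of_ne hv1 (hvI _).symm
    obtain ⟨k, ρ, hk0, hkl, hρ, hρk, hρI⟩ := exists_insert I hI v hv0' hv1' hvI
    have hρb : ∀ p, I 0 ≤ ρ p ∧ ρ p ≤ I (Fin.last s) := by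
      intro p
      rcases Fin.eq_self_or_eq_succAbove k p with rfl | ⟨p', rfl⟩
      · rw [hρk]; exact ⟨hv0, hv1⟩
      · have : ρ (k.succAbove p') = I p' := congrFun hρI p'
        rw [this]; exact hbI p'
    obtain ⟨k'', hk''⟩ := Fin.exists_castSucc_eq.2 hkl
    have r1 : (ρ ∘ Fin.castSucc) ∘ k''.succAbove = I ∘ Fin.castSucc := by
      funext p
      rw [← hρI, ← hk'']
      simp only [Function.comp_apply, Fin.castSucc_succAbove_castSucc]
    set X := mt a (I ∘ Fin.castSucc) (J ∘ Fin.castSucc) with hX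
    let α : Fin s → ℝ := (fun q => a v (J (Fin.castSucc q))) ᵥ* X⁻¹
    have hα : ∀ q : Fin s, ∑ p, α p * a (I p.castSucc) (J q.castSucc) = a v (J q.castSucc) := by
      intro q
      have : (α ᵥ* X) q = a v (J q.castSucc) := by
        simp only [α]
        rw [vecMul_vecMul, nonsing_inv_mul _ (isUnit_iff_ne_zero.2 h1), vecMul_one]
      rw [← this]; rfl
    refine ⟨α, ?_⟩
    let S : ℤ → ℝ := fun w => a v w - ∑ p, α p * a (I p.castSucc) w
    have hSc : ∀ q : Fin s, S (J q.castSucc) = 0 := fun q => by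
      simp only [S]; rw [hα q]; ring
    have hSl : S (J (Fin.last s)) = 0 := by
      have e : ∑ q : Fin (s + 1), S (J q) * ((-1) ^ (q : ℕ) * μ q) = 0 := by
        have : ∀ q : Fin (s + 1), S (J q) * ((-1) ^ (q : ℕ) * μ q) =
            a v (J q) * ((-1) ^ (q : ℕ) * μ q) -
            ∑ p, α p * (a (I p.castSucc) (J q) * ((-1) ^ (q : ℕ) * μ q)) := by
          intro q
          simp only [S]
          rw [sub_mul, Finset.sum_mul]
          congr 1
          exact Finset.sum_congr rfl fun p _ => by ring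
        rw [Finset.sum_congr rfl fun q _ => this q, Finset.sum_sub_distrib, hμ v hv0 hv1,
          Finset.sum_comm]
        have : ∀ p : Fin s, ∑ q : Fin (s + 1), α p * (a (I p.castSucc) (J q) *
            ((-1) ^ (q : ℕ) * μ q)) = 0 := by
          intro p
          rw [← Finset.mul_sum, hμ _ (hbI _).1 (hbI _).2, mul_zero]
        rw [Finset.sum_congr rfl fun p _ => this p]
        simp
      rw [Fin.sum_univ_castSucc] at e
      simp only [hSc, zero_mul, Finset.sum_const_zero, zero_add, Fin.val_last] at e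
      rcases mul_eq_zero.1 e with h | h
      · exact h
      · rcases mul_eq_zero.1 h with h | h
        · exact absurd h (by positivity)
        · exact absurd h hμl.ne'
    have hSJ : ∀ q : Fin (s + 1), S (J q) = 0 := fun q => by
      refine Fin.lastCases hSl (fun q' => hSc q') q
    intro w hw0 hw1
    suffices hSw : S w = 0 by
      simp only [S] at hSw; linarith
    by_cases hwJ : ∃ q, J q = w
    · obtain ⟨q, rfl⟩ := hwJ
      exact hSJ q
    push Not at hwJ
    have hw0' : J 0 < w := lt_of_le_of_ne hw0 (hwJ 0)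
    have hw1' : w < J (Fin.last s) := lt_of_le_of_ne hw1 (hwJ _).symm
    obtain ⟨l, τ, hl0, hll, hτ, hτl, hτJ⟩ := exists_insert J hJ w hw0' hw1' hwJ
    have hτb : ∀ p, J 0 ≤ τ p ∧ τ p ≤ J (Fin.last s) := by
      intro p
      rcases Fin.eq_self_or_eq_succAbove l p with rfl | ⟨p', rfl⟩
      · rw [hτl]; exact ⟨hw0, hw1⟩
      · have : τ (l.succAbove p') = J p' := congrFun hτJ p'
        rw [this]; exact hbJ p'
    obtain ⟨l', hl'⟩ := Fin.exists_succ_eq.2 hl0
    obtain ⟨l'', hl''⟩ := Fin.exists_castSucc_eq.2 hll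
    have hval : (l'' : ℕ) = l' + 1 := by
      have := congrArg Fin.val (hl''.trans hl'.symm); simpa using this
    have t1 : (τ ∘ Fin.castSucc) ∘ l''.succAbove = J ∘ Fin.castSucc := by
      funext p
      rw [← hτJ, ← hl'']
      simp only [Function.comp_apply, Fin.castSucc_succAbove_castSucc]
    have t2 : (τ ∘ Fin.succ) ∘ l'.succAbove = J ∘ Fin.succ := by
      funext p
      rw [← hτJ, ← hl']
      simp only [Function.comp_apply, Fin.succ_succAbove_succ]
    have hRk : (ρ ∘ Fin.castSucc) k'' = v := by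
      simp only [Function.comp_apply, hk'', hρk]
    have hC1 : (τ ∘ Fin.castSucc) l'' = w := by
      simp only [Function.comp_apply, hl'', hτl]
    have hC2 : (τ ∘ Fin.succ) l' = w := by
      simp only [Function.comp_apply, hl', hτl]
    have d1 := signed_det a (ρ ∘ Fin.castSucc) (τ ∘ Fin.castSucc) (I ∘ Fin.castSucc)
      (J ∘ Fin.castSucc) k'' l'' r1 t1 α (S w) (by rw [hRk, hC1]; rfl)
      (fun q => by rw [hRk]; exact hSJ _)
    have d2 := signed_det a (ρ ∘ Fin.castSucc) (τ ∘ Fin.succ) (I ∘ Fin.castSucc)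
      (J ∘ Fin.succ) k'' l' r1 t2 α (S w) (by rw [hRk, hC2]; rfl)
      (fun q => by rw [hRk]; exact hSJ _)
    have hd1 : 0 ≤ (mt a (ρ ∘ Fin.castSucc) (τ ∘ Fin.castSucc)).det :=
      hTN _ _ _ (hρ.comp Fin.strictMono_castSucc) (hτ.comp Fin.strictMono_castSucc)
        (fun p => hρb _) (fun q => hτb _)
    have hd2 : 0 ≤ (mt a (ρ ∘ Fin.castSucc) (τ ∘ Fin.succ)).det :=
      hTN _ _ _ (hρ.comp Fin.strictMono_castSucc) (hτ.comp Fin.strictMono_succ)
        (fun p => hρb _) (fun q => hτb _)
    have hm1 : 0 < (mt a (I ∘ Fin.castSucc) (J ∘ Fin.castSucc)).det :=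
      lt_of_le_of_ne (hTN _ _ _ (hI.comp Fin.strictMono_castSucc)
        (hJ.comp Fin.strictMono_castSucc) (fun p => hbI _) (fun p => hbJ _)) h1.symm
    have hm2 : 0 < (mt a (I ∘ Fin.castSucc) (J ∘ Fin.succ)).det := by rw [← hμeq]; exact hμ0
    rw [d1, hval] at hd1
    rw [d2] at hd2
    set m1 := (mt a (I ∘ Fin.castSucc) (J ∘ Fin.castSucc)).det
    set m2 := (mt a (I ∘ Fin.castSucc) (J ∘ Fin.succ)).det
    have hsg : ((-1 : ℝ)) ^ ((l' : ℕ) + 1 + k'') = - (-1) ^ ((l' : ℕ) + k'') := by
      rw [show (l' : ℕ) + 1 + k'' = (l' + k'') + 1 by ring, pow_succ]; ring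
    rw [hsg] at hd1
    set σ : ℝ := (-1) ^ ((l' : ℕ) + k'') with hσ
    have hσ2 : σ ≠ 0 := by rw [hσ]; positivity
    have f1 : S w * σ ≤ 0 := by
      have : 0 ≤ (-(S w * σ)) * m1 := by
        calc 0 ≤ _ := hd1
          _ = (-(S w * σ)) * m1 := by ring
      have := nonneg_of_mul_nonneg_left this hm1
      linarith
    have f2 : 0 ≤ S w * σ := by
      have : 0 ≤ (S w * σ) * m2 := by
        calc 0 ≤ _ := hd2
          _ = (S w * σ) * m2 := by ring
      exact nonneg_of_mul_nonneg_left this hm2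
    have f3 : S w * σ = 0 := le_antisymm f1 f2
    rcases mul_eq_zero.1 f3 with h | h
    · exact h
    · exact absurd h hσ2
  choose! α hα using key
  let A' : Matrix (Fin (s + 1)) (Fin (s + 1)) ℝ := of fun p =>
    Fin.snoc (α := fun _ => ℝ) (α (K p)) 0
  let B' : Matrix (Fin (s + 1)) (Fin (s + 1)) ℝ := of
    (Fin.snoc (α := fun _ => Fin (s + 1) → ℝ) (fun p q => a (I p.castSucc) (L q)) 0)
  have hprod : mt a K L = A' * B' := by
    ext p q
    rw [mul_apply, Fin.sum_univ_castSucc, mt_apply, hα (K p) (hK p).1 (hK p).2 (L q) (hL q).1 (hL q).2]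
    simp [A', B']
  rw [hprod, det_mul]
  have : B'.det = 0 := det_eq_zero_of_row_eq_zero (Fin.last s) (fun q => by simp [B'])
  rw [this, mul_zero]

end Pool.Agent.Helper54_Toeplitz
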