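import Mathlib

set_option autoImplicit false

namespace Pool.Agent.Helper54_Toeplitz

open Matrix

section DJ

variable {R : Type*} [CommRing R]

/-- Expansion of a determinant along a first column which is a multiple of `e_0`. -/
lemma det_of_col_zero {n : ℕ} (C : Matrix (Fin (n + 1)) (Fin (n + 1)) R)
    (h : ∀ i, i ≠ 0 → C i 0 = 0) :
    C.det = C 0 0 * (C.submatrix Fin.succ Fin.succ).det := by
  rw [det_succ_column_zero, Finset.sum_eq_single 0]
  · simp
  · intro b _ hb
    rw [h b hb]; simp
  · intro h; exact absurd (Finset.mem_univ _) h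

lemma det_of_col_last {n : ℕ} (C : Matrix (Fin (n + 1)) (Fin (n + 1)) R) (k : Fin (n + 1))
    (h : ∀ i, i ≠ k → C i (Fin.last n) = 0) :
    C.det = (-1) ^ ((k : ℕ) + n) * C k (Fin.last n) *
      (C.submatrix k.succAbove Fin.castSucc).det := by
  rw [det_succ_column C (Fin.last n), Finset.sum_eq_single k]
  · rw [Fin.succAbove_last]; simp
  · intro b _ hb
    rw [h b hb]; simp
  · intro h; exact absurd (Finset.mem_univ _) h

lemma det_of_row_last {n : ℕ} (C : Matrix (Fin (n + 1)) (Fin (n + 1)) R) (k : Fin (n + 1))
    (h : ∀ i, i ≠ k → C (Fin.last n) i = 0) :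
    C.det = (-1) ^ ((k : ℕ) + n) * C (Fin.last n) k *
      (C.submatrix Fin.castSucc k.succAbove).det := by
  rw [← det_transpose, det_of_col_last Cᵀ k (by simpa using h)]
  rw [← det_transpose (C.submatrix _ _)]
  rfl

lemma desnanot_of_isDomain [IsDomain R] {n : ℕ} (M : Matrix (Fin (n + 2)) (Fin (n + 2)) R)
    (hM : M.det ≠ 0) :
    M.det * (M.submatrix (fun p : Fin n => p.succ.castSucc) (fun q : Fin n => q.succ.castSucc)).det =
      (M.submatrix Fin.castSucc Fin.castSucc).det * (M.submatrix Fin.succ Fin.succ).det -
      (M.submatrix Fin.castSucc Fin.succ).det * (M.submatrix Fin.succ Fin.castSucc).det := by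
  classical
  set adj := M.adjugate with hadj
  set l : Fin (n + 2) := Fin.last (n + 1) with hl
  let B : Matrix (Fin (n + 2)) (Fin (n + 2)) R := of fun i j =>
    if j = 0 then adj i 0 else if j = l then adj i l else (1 : Matrix _ _ R) i j
  have h0l : (0 : Fin (n + 2)) ≠ l := by
    intro h; have := congrArg Fin.val h; simp [hl] at this
  have hB0 : ∀ i, B i 0 = adj i 0 := fun i => by simp [B]
  have hBl : ∀ i, B i l = adj i l := fun i => by simp [B, h0l.symm]
  have hBo : ∀ i j, j ≠ 0 → j ≠ l → B i j = (1 : Matrix _ _ R) i j := fun i j h1 h2 => by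
    simp [B, h1, h2]
  have hMB : ∀ i j, (M * B) i j = if j = 0 then (if i = 0 then M.det else 0) else
      if j = l then (if i = l then M.det else 0) else M i j := by
    intro i j
    have hma : M * adj = M.det • (1 : Matrix _ _ R) := mul_adjugate M
    by_cases h1 : j = 0
    · subst h1
      have : (M * B) i 0 = (M * adj) i 0 := by
        rw [mul_apply, mul_apply]; exact Finset.sum_congr rfl fun k _ => by rw [hB0]
      rw [this, hma]; simp [Matrix.one_apply]
    · by_cases h2 : j = l
      · subst h2
        have : (M * B) i l = (M * adj) i l := by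
          rw [mul_apply, mul_apply]; exact Finset.sum_congr rfl fun k _ => by rw [hBl]
        rw [this, hma]; simp [Matrix.one_apply, h1]
      · have : (M * B) i j = (M * (1 : Matrix (Fin (n + 2)) (Fin (n + 2)) R)) i j := by
          rw [mul_apply, mul_apply]; exact Finset.sum_congr rfl fun k _ => by rw [hBo k j h1 h2]
        rw [this]; simp [h1, h2]
  have hsl : ∀ q : Fin n, q.succ.castSucc ≠ (0 : Fin (n + 2)) := fun q h => by
    have := congrArg Fin.val h; simp at this
  have hsl' : ∀ q : Fin n, q.succ.castSucc ≠ l := fun q h => by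
    have := congrArg Fin.val h; simp [hl] at this; omega
  have hdetMB : (M * B).det = M.det * (M.det * (M.submatrix (fun p : Fin n => p.succ.castSucc)
      (fun q : Fin n => q.succ.castSucc)).det) := by
    rw [det_of_col_zero (M * B) (fun i hi => by rw [hMB]; simp [hi]),
      det_of_col_last _ (Fin.last n) (fun i hi => by
        rw [submatrix_apply, hMB, Fin.succ_last, ← hl]
        have : i.succ ≠ l := by
          rw [hl, ← Fin.succ_last]; exact fun h => hi (Fin.succ_injective _ h)
        simp [h0l.symm, this])]
    have e1 : (M * B) 0 0 = M.det := by rw [hMB]; simp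
    have e2 : ((M * B).submatrix Fin.succ Fin.succ) (Fin.last n) (Fin.last n) = M.det := by
      rw [submatrix_apply, hMB, Fin.succ_last, ← hl]; simp [h0l.symm]
    have e3 : (((M * B).submatrix Fin.succ Fin.succ).submatrix (Fin.last n).succAbove Fin.castSucc)
        = M.submatrix (fun p : Fin n => p.succ.castSucc) (fun q : Fin n => q.succ.castSucc) := by
      ext p q
      rw [submatrix_apply, submatrix_apply, submatrix_apply, hMB, Fin.succAbove_last,
        Fin.succ_castSucc, Fin.succ_castSucc, if_neg (hsl q), if_neg (hsl' q)]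
    rw [e1, e2, e3]
    have : ((-1 : R)) ^ (((Fin.last n : Fin (n + 1)) : ℕ) + n) = 1 := by
      rw [Fin.val_last, ← two_mul, pow_mul]; simp
    rw [this, one_mul]
  have hdetB : B.det = adj 0 0 * adj l l - adj 0 l * adj l 0 := by
    rw [det_succ_row_zero]
    have hsum : ∀ f : Fin (n + 2) → R, (∀ j, j ≠ 0 → j ≠ l → f j = 0) →
        ∑ j, f j = f 0 + f l := by
      intro f hf
      rw [← Finset.sum_subset (Finset.subset_univ {0, l}), Finset.sum_pair h0l]
      intro x _ hx
      simp only [Finset.mem_insert, Finset.mem_singleton, not_or] at hx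
      exact hf x hx.1 hx.2
    rw [hsum _ (fun j h1 h2 => by
      rw [hBo 0 j h1 h2, Matrix.one_apply_ne (Ne.symm h1)]; simp)]
    have e1 : (B.submatrix Fin.succ (Fin.succAbove 0)).det = adj l l := by
      rw [det_of_row_last _ (Fin.last n) (fun i hi => by
        rw [submatrix_apply, Fin.succ_last, Fin.succAbove_zero]
        have h1 : i.succ ≠ l := by
          rw [hl, ← Fin.succ_last]; exact fun h => hi (Fin.succ_injective _ h)
        rw [hBo _ _ (Fin.succ_ne_zero _) h1, Matrix.one_apply_ne (by rw [← hl]; exact h1.symm)])]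
      rw [submatrix_apply, Fin.succ_last, Fin.succAbove_zero, Fin.succ_last, ← hl, hBl]
      have : (B.submatrix Fin.succ Fin.succ).submatrix Fin.castSucc (Fin.last n).succAbove
          = (1 : Matrix (Fin n) (Fin n) R) := by
        ext p q
        rw [submatrix_apply, submatrix_apply, Fin.succAbove_last, Fin.succ_castSucc,
          Fin.succ_castSucc, hBo _ _ (hsl q) (hsl' q)]
        simp [Matrix.one_apply, Fin.ext_iff]
      rw [this, det_one]
      have : ((-1 : R)) ^ (((Fin.last n : Fin (n + 1)) : ℕ) + n) = 1 := by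
        rw [Fin.val_last, ← two_mul, pow_mul]; simp
      rw [this]; simp
    have e2 : (B.submatrix Fin.succ (Fin.succAbove l)).det = (-1) ^ n * adj l 0 := by
      rw [hl, Fin.succAbove_last, det_of_row_last _ 0 (fun i hi => by
        rw [submatrix_apply, Fin.succ_last]
        have h1 : i.castSucc ≠ (0 : Fin (n + 2)) := by
          intro h; apply hi; apply Fin.ext; have := congrArg Fin.val h; simpa using this
        have h2 : i.castSucc ≠ l := (Fin.castSucc_lt_last i).ne
        rw [hBo _ _ h1 h2, Matrix.one_apply_ne (by rw [← hl]; exact h2.symm)])]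
      rw [submatrix_apply, Fin.succ_last, Fin.castSucc_zero, ← hl, hB0]
      have : (B.submatrix Fin.succ Fin.castSucc).submatrix Fin.castSucc (Fin.succAbove 0)
          = (1 : Matrix (Fin n) (Fin n) R) := by
        ext p q
        rw [submatrix_apply, submatrix_apply, Fin.succAbove_zero, Fin.succ_castSucc,
          hBo _ _ (hsl q) (hsl' q)]
        simp [Matrix.one_apply, Fin.ext_iff]
      rw [this, det_one]
      simp
    rw [e1, e2, hB0, hBl]
    simp only [Fin.val_zero, pow_zero, one_mul, hl, Fin.val_last]
    have : ((-1 : R)) ^ (n + 1) * (-1) ^ n = -1 := by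
      rw [← pow_add, show n + 1 + n = 2 * n + 1 by ring, pow_succ, pow_mul]; simp
    linear_combination (adj 0 (Fin.last (n + 1)) * adj (Fin.last (n + 1)) 0) * this
  have a00 : adj 0 0 = (M.submatrix Fin.succ Fin.succ).det := by
    rw [hadj, adjugate_fin_succ_eq_det_submatrix]; simp [Fin.succAbove_zero]
  have all : adj l l = (M.submatrix Fin.castSucc Fin.castSucc).det := by
    rw [hadj, adjugate_fin_succ_eq_det_submatrix, hl, Fin.succAbove_last]
    rw [Fin.val_last, ← two_mul, pow_mul]; simp
  have a0l : adj 0 l = (-1) ^ (n + 1) * (M.submatrix Fin.castSucc Fin.succ).det := by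
    rw [hadj, adjugate_fin_succ_eq_det_submatrix, hl, Fin.succAbove_last]; simp [Fin.succAbove_zero]
  have al0 : adj l 0 = (-1) ^ (n + 1) * (M.submatrix Fin.succ Fin.castSucc).det := by
    rw [hadj, adjugate_fin_succ_eq_det_submatrix, hl, Fin.succAbove_last]; simp [Fin.succAbove_zero]
  have hmain := det_mul M B
  rw [hdetMB, hdetB, a00, all, a0l, al0] at hmain
  have hsq : ((-1 : R)) ^ (n + 1) * (-1) ^ (n + 1) = 1 := by
    rw [← mul_pow]; simp
  have h2 := mul_left_cancel₀ hM hmain
  rw [h2]
  linear_combination (-(M.submatrix Fin.castSucc Fin.succ).det *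
    (M.submatrix Fin.succ Fin.castSucc).det) * hsq

/-- The Desnanot-Jacobi identity. -/
theorem desnanot {n : ℕ} (M : Matrix (Fin (n + 2)) (Fin (n + 2)) ℝ) :
    M.det * (M.submatrix (fun p : Fin n => p.succ.castSucc) (fun q : Fin n => q.succ.castSucc)).det =
      (M.submatrix Fin.castSucc Fin.castSucc).det * (M.submatrix Fin.succ Fin.succ).det -
      (M.submatrix Fin.castSucc Fin.succ).det * (M.submatrix Fin.succ Fin.castSucc).det := by
  have h := desnanot_of_isDomain (charmatrix (-M)) (by
    have := (charpoly_monic (-M)).ne_zero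
    exact this)
  have h0 := congrArg (Polynomial.evalRingHom (0 : ℝ)) h
  simp only [map_mul, map_sub, RingHom.map_det, RingHom.mapMatrix_apply, ← submatrix_map] at h0
  have hM : (charmatrix (-M)).map (Polynomial.evalRingHom (0 : ℝ)) = M := by
    ext i j
    by_cases hij : i = j <;> simp [charmatrix_apply, hij]
  rw [hM] at h0
  exact h0

end DJ

end Pool.Agent.Helper54_Toeplitz
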