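import Pool.Agent.Helper54_Toeplitz.Det

set_option autoImplicit false

namespace Pool.Agent.Helper54_Toeplitz

open Matrix

/-- Cramer's rule for a right-hand side supported at one place. -/
lemma cramer_single {s : ℕ} (M : Matrix (Fin (s + 1)) (Fin (s + 1)) ℝ) (x : Fin (s + 1) → ℝ)
    (k : Fin (s + 1)) (d : ℝ) (h : M *ᵥ x = Pi.single k d) (q : Fin (s + 1)) :
    M.det * x q = d * ((-1) ^ ((k : ℕ) + q) * (M.submatrix k.succAbove q.succAbove).det) := by
  have h1 : (M.adjugate *ᵥ (M *ᵥ x)) q = M.det * x q := by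
    rw [mulVec_mulVec, adjugate_mul, smul_mulVec, one_mulVec]; rfl
  rw [← h1, h, mulVec_single]
  simp only [Pi.smul_apply, MulOpposite.smul_eq_mul_unop, MulOpposite.unop_op]
  rw [col_apply, adjugate_fin_succ_eq_det_submatrix]
  ring

/-- The alternating maximal minors of an `s × (s+1)` matrix form a kernel vector. -/
lemma minors_kernel {s : ℕ} (N : Matrix (Fin s) (Fin (s + 1)) ℝ) (p : Fin s) :
    ∑ q : Fin (s + 1), (-1) ^ (q : ℕ) * N p q * (N.submatrix id q.succAbove).det = 0 := by
  let M : Matrix (Fin (s + 1)) (Fin (s + 1)) ℝ := of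
    (Fin.cons (α := fun _ => Fin (s + 1) → ℝ) (N p) (fun i => N i))
  have h0 : M.det = 0 := by
    apply det_zero_of_row_eq (i := 0) (j := p.succ) (Fin.succ_ne_zero p).symm
    funext q
    simp [M]
  rw [det_succ_row_zero] at h0
  rw [← h0]
  refine Finset.sum_congr rfl fun q _ => ?_
  have : M.submatrix Fin.succ q.succAbove = N.submatrix id q.succAbove := by
    ext a b; simp [M]
  rw [this]
  simp [M]

/-- Transposed version. -/
lemma minors_kernel' {s : ℕ} (N : Matrix (Fin (s + 1)) (Fin s) ℝ) (p : Fin s) :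
    ∑ q : Fin (s + 1), (-1) ^ (q : ℕ) * N q p * (N.submatrix q.succAbove id).det = 0 := by
  have := minors_kernel Nᵀ p
  rw [← this]
  refine Finset.sum_congr rfl fun q _ => ?_
  rw [transpose_apply, ← det_transpose]
  rfl

/-- Three-term relation. -/
lemma three_term {s : ℕ} (N : Matrix (Fin (s + 2)) (Fin (s + 1)) ℝ) (k : Fin (s + 2))
    (hk0 : k ≠ 0) (hkl : k ≠ Fin.last (s + 1)) :
    ∃ f g : Fin s → Fin (s + 2), StrictMono f ∧ StrictMono g ∧
      (N.submatrix k.succAbove id).det *
        (N.submatrix (fun p : Fin s => p.succ.castSucc) Fin.succ).det =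
      (N.submatrix Fin.castSucc id).det * (N.submatrix f Fin.succ).det +
      (N.submatrix Fin.succ id).det * (N.submatrix g Fin.succ).det := by
  obtain ⟨k', rfl⟩ := Fin.exists_succ_eq.2 hk0
  obtain ⟨k'', hk''⟩ := Fin.exists_castSucc_eq.2 hkl
  have hval : (k'' : ℕ) = k' + 1 := by
    have := congrArg Fin.val hk''; simpa using this
  refine ⟨Fin.succ ∘ k'.succAbove, Fin.castSucc ∘ k''.succAbove,
    (Fin.strictMono_succ).comp (Fin.strictMono_succAbove _),
    (Fin.strictMono_castSucc).comp (Fin.strictMono_succAbove _), ?_⟩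
  let M : Matrix (Fin (s + 2)) (Fin (s + 2)) ℝ := of fun i =>
    Fin.snoc (α := fun _ => ℝ) (N i) (if i = k'.succ then 1 else 0)
  have hMc : ∀ i (q : Fin (s + 1)), M i q.castSucc = N i q := fun i q => by simp [M]
  have hMl : ∀ i, M i (Fin.last (s + 1)) = if i = k'.succ then 1 else 0 := fun i => by simp [M]
  have hdj := desnanot M
  have e1 : M.det = (-1) ^ ((k' : ℕ) + 1 + (s + 1)) * (N.submatrix k'.succ.succAbove id).det := by
    rw [det_of_col_last M k'.succ (fun i hi => by rw [hMl, if_neg hi]), hMl, if_pos rfl]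
    have : M.submatrix k'.succ.succAbove Fin.castSucc = N.submatrix k'.succ.succAbove id := by
      ext a b; simp [hMc]
    rw [this]; simp
  have e2 : (M.submatrix (fun p : Fin s => p.succ.castSucc) (fun q : Fin s => q.succ.castSucc)).det
      = (N.submatrix (fun p : Fin s => p.succ.castSucc) Fin.succ).det := by
    congr 1; ext a b; simp only [submatrix_apply, hMc]
  have e3 : M.submatrix Fin.castSucc Fin.castSucc = N.submatrix Fin.castSucc id := by
    ext a b; simp [hMc]
  have e4 : (M.submatrix Fin.succ Fin.succ).det =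
      (-1) ^ ((k' : ℕ) + s) * (N.submatrix (Fin.succ ∘ k'.succAbove) Fin.succ).det := by
    rw [det_of_col_last _ k' (fun i hi => by
      rw [submatrix_apply, Fin.succ_last, hMl, if_neg (fun h => hi (Fin.succ_injective _ h))])]
    rw [submatrix_apply, Fin.succ_last, hMl, if_pos rfl, mul_one]
    congr 2
    ext a b
    simp only [submatrix_apply, Function.comp_apply, Fin.succ_castSucc, hMc]
  have e5 : (M.submatrix Fin.castSucc Fin.succ).det =
      (-1) ^ ((k'' : ℕ) + s) * (N.submatrix (Fin.castSucc ∘ k''.succAbove) Fin.succ).det := by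
    rw [det_of_col_last _ k'' (fun i hi => by
      rw [submatrix_apply, Fin.succ_last, hMl, ← hk'',
        if_neg (fun h => hi (Fin.castSucc_injective _ h))])]
    rw [submatrix_apply, Fin.succ_last, hMl, ← hk'', if_pos rfl, mul_one]
    congr 2
    ext a b
    simp only [submatrix_apply, Function.comp_apply, Fin.succ_castSucc, hMc]
  have e6 : M.submatrix Fin.succ Fin.castSucc = N.submatrix Fin.succ id := by
    ext a b; simp [hMc]
  rw [e1, e2, e3, e4, e5, e6, hval] at hdj
  have hs : ((-1 : ℝ)) ^ ((k' : ℕ) + s) * (-1) ^ ((k' : ℕ) + s) = 1 := by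
    rw [← mul_pow]; simp
  have hs1 : ((-1 : ℝ)) ^ ((k' : ℕ) + 1 + (s + 1)) = (-1) ^ ((k' : ℕ) + s) := by
    rw [show (k' : ℕ) + 1 + (s + 1) = (k' + s) + 2 by ring, pow_add]; simp
  have hs2 : ((-1 : ℝ)) ^ ((k' : ℕ) + 1 + s) = - (-1) ^ ((k' : ℕ) + s) := by
    rw [show (k' : ℕ) + 1 + s = (k' + s) + 1 by ring, pow_succ]; ring
  rw [hs1, hs2] at hdj
  have h3 := congrArg (fun z => (-1 : ℝ) ^ ((k' : ℕ) + s) * z) hdj
  set σ : ℝ := (-1 : ℝ) ^ ((k' : ℕ) + s)
  have hs' : σ ^ 2 = 1 := by rw [pow_two]; exact hs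
  linear_combination h3 + (-(N.submatrix k'.succ.succAbove id).det *
        (N.submatrix (fun p : Fin s => p.succ.castSucc) Fin.succ).det +
      (N.submatrix Fin.castSucc id).det * (N.submatrix (Fin.succ ∘ k'.succAbove) Fin.succ).det +
      (N.submatrix Fin.succ id).det * (N.submatrix (Fin.castSucc ∘ k''.succAbove) Fin.succ).det) * hs'

end Pool.Agent.Helper54_Toeplitz
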