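import Pool.Agent.Helper54_Toeplitz.Interval

set_option autoImplicit false

namespace Pool.Agent.Helper54_Toeplitz

open Matrix Filter Topology

/-- Fekete's criterion for Toeplitz matrices. -/
theorem fekete {c : ℤ → ℝ} {m n : ℕ} (hpos : ∀ (s : ℕ) (t : ℤ), (s : ℤ) ≤ ell m n t → 0 < D c s t) :
    ∀ (s : ℕ) (I J : Fin s → ℤ), StrictMono I → StrictMono J → (∀ p, 0 ≤ I p ∧ I p ≤ (m : ℤ) - 1) →
      (∀ q, 0 ≤ J q ∧ J q ≤ (n : ℤ) - 1) → 0 < (mt (tp c) I J).det := by
  intro s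
  induction s with
  | zero => intro I J _ _ _ _; simp
  | succ s ih =>
    intro I J hI hJ hx hy
    have bI := strictMono_bounds hI
    have bJ := strictMono_bounds hJ
    have hrows : ∀ L : Fin (s + 1) → ℤ, StrictMono L → 0 ≤ L 0 → L (Fin.last s) ≤ (n : ℤ) - 1 →
        (∀ x : ℤ, 0 ≤ x → x + s ≤ (m : ℤ) - 1 →
          0 < (mt (tp c) (fun p : Fin (s + 1) => x + (p : ℤ)) L).det) →
        ∀ K : Fin (s + 1) → ℤ, StrictMono K → 0 ≤ K 0 → K (Fin.last s) ≤ (m : ℤ) - 1 →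
          0 < (mt (tp c) K L).det := by
      intro L hL hL0 hL1 hb
      refine dispersion_induction 0 ((m : ℤ) - 1) (fun K => 0 < (mt (tp c) K L).det) hb ?_
      intro ρ hρ hρ0 hρ1 k hk0 hkl hq1 hq2
      obtain ⟨f, g, hf, hg, hfg⟩ := three_term (mt (tp c) ρ L) k hk0 hkl
      simp only [mt_submatrix, Function.comp_id] at hfg
      have bρ := strictMono_bounds hρ
      have bL := strictMono_bounds hL
      have hboxρ : ∀ (w : Fin s → Fin (s + 2)) p, 0 ≤ (ρ ∘ w) p ∧ (ρ ∘ w) p ≤ (m : ℤ) - 1 :=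
        fun w p => ⟨hρ0.trans (bρ _).1, (bρ _).2.trans hρ1⟩
      have hboxL : ∀ p, 0 ≤ (L ∘ Fin.succ) p ∧ (L ∘ Fin.succ) p ≤ (n : ℤ) - 1 :=
        fun p => ⟨hL0.trans (bL _).1, (bL _).2.trans hL1⟩
      have h1 := ih _ _ (hρ.comp (Fin.strictMono_castSucc.comp Fin.strictMono_succ))
        (hL.comp Fin.strictMono_succ) (hboxρ _) hboxL
      have h2 := ih _ _ (hρ.comp hf) (hL.comp Fin.strictMono_succ) (hboxρ _) hboxL
      have h3 := ih _ _ (hρ.comp hg) (hL.comp Fin.strictMono_succ) (hboxρ _) hboxL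
      have h4 : 0 < (mt (tp c) (ρ ∘ k.succAbove) L).det *
          (mt (tp c) (ρ ∘ fun p : Fin s => p.succ.castSucc) (L ∘ Fin.succ)).det := by
        rw [hfg]; exact add_pos (mul_pos hq2 h2) (mul_pos hq1 h3)
      exact pos_of_mul_pos_left h4 h1.le
    refine hrows J hJ (hy 0).1 (hy _).2 ?_ I hI (hx 0).1 (hx _).2
    intro x hx0 hx1
    refine dispersion_induction 0 ((n : ℤ) - 1)
      (fun L => 0 < (mt (tp c) (fun p : Fin (s + 1) => x + (p : ℤ)) L).det) ?_ ?_ J hJ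
      (hy 0).1 (hy _).2
    · intro y hy0 hy1
      rw [det_contiguous c (s + 1) _ _ x y (fun _ => rfl) (fun _ => rfl)]
      refine hpos _ _ ?_
      rw [le_ell]
      push_cast
      omega
    · intro τ hτ hτ0 hτ1 k hk0 hkl hq1 hq2
      set K : Fin (s + 1) → ℤ := fun p => x + (p : ℤ) with hK
      have hKm : StrictMono K := strictMono_contig x _
      obtain ⟨f, g, hf, hg, hfg⟩ := three_term (mt (fun x y => tp c y x) τ K) k hk0 hkl
      simp only [mt_submatrix, Function.comp_id, mt_det_transpose] at hfg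
      have bτ := strictMono_bounds hτ
      have hboxτ : ∀ (w : Fin s → Fin (s + 2)) p, 0 ≤ (τ ∘ w) p ∧ (τ ∘ w) p ≤ (n : ℤ) - 1 :=
        fun w p => ⟨hτ0.trans (bτ _).1, (bτ _).2.trans hτ1⟩
      have hboxK : ∀ p, 0 ≤ (K ∘ Fin.succ) p ∧ (K ∘ Fin.succ) p ≤ (m : ℤ) - 1 := by
        intro p
        have := (Fin.succ p).2
        simp only [Function.comp_apply, hK]
        constructor <;> omega
      have h1 := ih _ _ (hKm.comp Fin.strictMono_succ)
        (hτ.comp (Fin.strictMono_castSucc.comp Fin.strictMono_succ)) hboxK (hboxτ _)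
      have h2 := ih _ _ (hKm.comp Fin.strictMono_succ) (hτ.comp hf) hboxK (hboxτ _)
      have h3 := ih _ _ (hKm.comp Fin.strictMono_succ) (hτ.comp hg) hboxK (hboxτ _)
      have h4 : 0 < (mt (tp c) K (τ ∘ k.succAbove)).det *
          (mt (tp c) (K ∘ Fin.succ) (τ ∘ fun p : Fin s => p.succ.castSucc)).det := by
        rw [hfg]; exact add_pos (mul_pos hq2 h2) (mul_pos hq1 h3)
      exact pos_of_mul_pos_left h4 h1.le

/-- Solution of the discrete Dirichlet problem. -/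
theorem dirichlet (m n : ℕ) : ∃ C : ℝ, ∀ (ε : ℝ), 0 < ε → ε ≤ 1 → ∀ g : ℤ → ℝ,
    (∀ t, ε ≤ g t ∧ g t ≤ 1) → ∃ v : ℕ → ℤ → ℝ, (∀ r t, 0 < v r t) ∧ (∀ r t, v r t ≤ C) ∧
      (∀ t, v 0 t = 1) ∧ (∀ (r : ℕ) (t : ℤ), 1 ≤ r → (r : ℤ) = ell m n t → v r t = g t) ∧
      ∀ (r : ℕ) (t : ℤ), 1 ≤ r → (r : ℤ) < ell m n t →
        v r t * v r t = v (r + 1) t * v (r - 1) t + v r (t + 1) * v r (t - 1) := by
  classical
  set N : ℝ := (m : ℝ) + n with hN
  have hN0 : 0 ≤ N := by positivity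
  set C : ℝ := Real.exp (2 * N ^ 2) with hC
  have hC1 : 1 ≤ C := Real.one_le_exp (by positivity)
  have hC0 : 0 < C := by positivity
  refine ⟨C, fun ε hε hε1 g hg => ?_⟩
  have hεC : ε ≤ C := hε1.trans hC1
  have : Fact (ε ≤ C) := ⟨hεC⟩
  let F0 : (ℕ → ℤ → Set.Icc ε C) → ℕ → ℤ → ℝ := fun f r t =>
    if 1 ≤ r ∧ (r : ℤ) < ell m n t then
      min C (Real.sqrt ((f (r + 1) t : ℝ) * (f (r - 1) t : ℝ) + (f r (t + 1) : ℝ) * (f r (t - 1) : ℝ)))
    else if 1 ≤ r ∧ (r : ℤ) = ell m n t then g t else 1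
  have hmem : ∀ (x : Set.Icc ε C), 0 < (x : ℝ) := fun x => hε.trans_le x.2.1
  have hF0 : ∀ f r t, F0 f r t ∈ Set.Icc ε C := by
    intro f r t
    simp only [F0]
    split_ifs with h1 h2
    · refine ⟨le_min hεC ?_, min_le_left _ _⟩
      apply Real.le_sqrt_of_sq_le
      have e1 := mul_le_mul (f (r + 1) t).2.1 (f (r - 1) t).2.1 hε.le (hmem _).le
      have e2 := mul_le_mul (f r (t + 1)).2.1 (f r (t - 1)).2.1 hε.le (hmem _).le
      nlinarith [mul_pos hε hε]
    · exact ⟨(hg t).1, (hg t).2.trans hC1⟩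
    · exact ⟨hε1, hC1⟩
  let F : (ℕ → ℤ → Set.Icc ε C) →o (ℕ → ℤ → Set.Icc ε C) :=
    { toFun := fun f r t => ⟨F0 f r t, hF0 f r t⟩
      monotone' := by
        intro f f' hff r t
        have hle : ∀ r t, (f r t : ℝ) ≤ f' r t := fun r t => hff r t
        change F0 f r t ≤ F0 f' r t
        simp only [F0]
        split_ifs with h1 h2
        · refine min_le_min_left _ (Real.sqrt_le_sqrt (add_le_add ?_ ?_))
          · exact mul_le_mul (hle _ _) (hle _ _) (hmem _).le (hmem _).le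
          · exact mul_le_mul (hle _ _) (hle _ _) (hmem _).le (hmem _).le
        · exact le_rfl
        · exact le_rfl }
  let V := F.lfp
  have hV : F V = V := F.map_lfp
  -- the supersolution
  let w : ℕ → ℤ → ℝ := fun r t => C * Real.exp (-((r : ℝ) ^ 2 + (t : ℝ) ^ 2))
  have hwle : ∀ r t, w r t ≤ C := fun r t => by
    have : Real.exp (-((r : ℝ) ^ 2 + (t : ℝ) ^ 2)) ≤ 1 := Real.exp_le_one_iff.2 (by
      have := sq_nonneg (r : ℝ); have := sq_nonneg (t : ℝ); linarith)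
    calc w r t ≤ C * 1 := mul_le_mul_of_nonneg_left this hC0.le
      _ = C := mul_one C
  let u0 : ℕ → ℤ → ℝ := fun r t => if (r : ℝ) ≤ N ∧ |(t : ℝ)| ≤ N then w r t else 1
  have hw1 : ∀ (r : ℕ) (t : ℤ), (r : ℝ) ≤ N → |(t : ℝ)| ≤ N → 1 ≤ w r t := by
    intro r t hr ht
    simp only [w, hC]
    rw [← Real.exp_add]
    apply Real.one_le_exp
    have h1 : (r : ℝ) ^ 2 ≤ N ^ 2 := by
      have : (0 : ℝ) ≤ r := Nat.cast_nonneg r
      nlinarith
    have h2 : (t : ℝ) ^ 2 ≤ N ^ 2 := sq_le_sq' (abs_le.1 ht).1 (abs_le.1 ht).2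
    linarith
  have hu0 : ∀ r t, u0 r t ∈ Set.Icc ε C := by
    intro r t
    simp only [u0]
    split_ifs with h1
    · exact ⟨hε1.trans (hw1 r t h1.1 h1.2), hwle r t⟩
    · exact ⟨hε1, hC1⟩
  have hu01 : ∀ r t, 1 ≤ u0 r t := by
    intro r t
    simp only [u0]
    split_ifs with h1
    · exact hw1 r t h1.1 h1.2
    · exact le_rfl
  let U : ℕ → ℤ → Set.Icc ε C := fun r t => ⟨u0 r t, hu0 r t⟩
  have hreg : ∀ (r : ℕ) (t : ℤ), 1 ≤ r → (r : ℤ) < ell m n t → ∀ (r' : ℕ) (t' : ℤ), r' ≤ r + 1 →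
      t - 1 ≤ t' → t' ≤ t + 1 → u0 r' t' = w r' t' := by
    intro r t hr hrt r' t' h1 h2 h3
    have h4 : ((r + 1 : ℕ) : ℤ) ≤ ell m n t := by push_cast; omega
    rw [le_ell] at h4
    push_cast at h4
    have h5 : (r' : ℝ) ≤ N := by
      have : ((r' : ℤ) : ℝ) ≤ ((m + n : ℤ) : ℝ) := by
        exact_mod_cast (by omega : (r' : ℤ) ≤ m + n)
      simpa [hN] using this
    have h6 : |(t' : ℝ)| ≤ N := by
      rw [abs_le]
      constructor
      · have : ((-(m + n : ℤ) : ℤ) : ℝ) ≤ (t' : ℝ) := by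
          exact_mod_cast (by omega : -(m + n : ℤ) ≤ t')
        have e : ((-(m + n : ℤ) : ℤ) : ℝ) = -N := by rw [hN]; push_cast; ring
        rwa [e] at this
      · have : (t' : ℝ) ≤ ((m + n : ℤ) : ℝ) := by
          exact_mod_cast (by omega : t' ≤ (m + n : ℤ))
        simpa [hN] using this
    simp only [u0]
    rw [if_pos ⟨h5, h6⟩]
  have hexp2 : ∀ x : ℝ, Real.exp x ^ 2 = Real.exp (2 * x) := by
    intro x; rw [← Real.exp_nat_mul]; norm_num
  have he2 : Real.exp (-2) ≤ 1 / 2 := by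
    rw [Real.exp_neg]
    have : (2 : ℝ) + 1 ≤ Real.exp 2 := Real.add_one_le_exp 2
    rw [inv_eq_one_div]
    apply one_div_le_one_div_of_le (by norm_num)
    linarith
  have hFU : F U ≤ U := by
    intro r t
    change F0 U r t ≤ u0 r t
    simp only [F0]
    split_ifs with h1 h2
    · refine (min_le_right _ _).trans ?_
      have hr1 : u0 (r + 1) t = w (r + 1) t := hreg r t h1.1 h1.2 _ _ le_rfl (by omega) (by omega)
      have hr2 : u0 (r - 1) t = w (r - 1) t := hreg r t h1.1 h1.2 _ _ (by omega) (by omega) (by omega)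
      have hr3 : u0 r (t + 1) = w r (t + 1) := hreg r t h1.1 h1.2 _ _ (by omega) (by omega) le_rfl
      have hr4 : u0 r (t - 1) = w r (t - 1) := hreg r t h1.1 h1.2 _ _ (by omega) le_rfl (by omega)
      have hr5 : u0 r t = w r t := hreg r t h1.1 h1.2 _ _ (by omega) (by omega) (by omega)
      change Real.sqrt (u0 (r + 1) t * u0 (r - 1) t + u0 r (t + 1) * u0 r (t - 1)) ≤ u0 r t
      rw [hr1, hr2, hr3, hr4, hr5]
      apply Real.sqrt_le_iff.2
      refine ⟨by positivity, ?_⟩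
      have e1 : w (r + 1) t * w (r - 1) t = (w r t) ^ 2 * Real.exp (-2) := by
        simp only [w]
        rw [mul_pow, hexp2 (-((r : ℝ) ^ 2 + (t : ℝ) ^ 2))]
        have : C * Real.exp (-(((r + 1 : ℕ) : ℝ) ^ 2 + (t : ℝ) ^ 2)) *
            (C * Real.exp (-(((r - 1 : ℕ) : ℝ) ^ 2 + (t : ℝ) ^ 2))) =
            C ^ 2 * Real.exp (-(((r + 1 : ℕ) : ℝ) ^ 2 + (t : ℝ) ^ 2) +
              -(((r - 1 : ℕ) : ℝ) ^ 2 + (t : ℝ) ^ 2)) := by rw [Real.exp_add]; ring
        rw [this, mul_assoc (C ^ 2), ← Real.exp_add]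
        congr 2
        push_cast [h1.1]
        ring
      have e2 : w r (t + 1) * w r (t - 1) = (w r t) ^ 2 * Real.exp (-2) := by
        simp only [w]
        rw [mul_pow, hexp2 (-((r : ℝ) ^ 2 + (t : ℝ) ^ 2))]
        have : C * Real.exp (-((r : ℝ) ^ 2 + ((t + 1 : ℤ) : ℝ) ^ 2)) *
            (C * Real.exp (-((r : ℝ) ^ 2 + ((t - 1 : ℤ) : ℝ) ^ 2))) =
            C ^ 2 * Real.exp (-((r : ℝ) ^ 2 + ((t + 1 : ℤ) : ℝ) ^ 2) +
              -((r : ℝ) ^ 2 + ((t - 1 : ℤ) : ℝ) ^ 2)) := by rw [Real.exp_add]; ring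
        rw [this, mul_assoc (C ^ 2), ← Real.exp_add]
        congr 2
        push_cast
        ring
      rw [e1, e2]
      have : 0 ≤ (w r t) ^ 2 := sq_nonneg _
      nlinarith
    · exact (hg t).2.trans (hu01 r t)
    · exact hu01 r t
  have hVU : V ≤ U := F.lfp_le hFU
  have hVF : ∀ r t, (V r t : ℝ) = F0 V r t := by
    intro r t
    have := congrFun (congrFun hV r) t
    rw [← this]; rfl
  refine ⟨fun r t => (V r t : ℝ), fun r t => hmem _, fun r t => (V r t).2.2, ?_, ?_, ?_⟩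
  · intro t
    change (V 0 t : ℝ) = 1
    rw [hVF]; simp [F0]
  · intro r t h1 h2
    change (V r t : ℝ) = g t
    rw [hVF]
    simp only [F0]
    rw [if_neg (by rintro ⟨_, h⟩; omega), if_pos ⟨h1, h2⟩]
  · intro r t h1 h2
    have h3 := hVF r t
    simp only [F0] at h3
    rw [if_pos ⟨h1, h2⟩] at h3
    have h4 : (V r t : ℝ) ≤ u0 r t := hVU r t
    rw [hreg r t h1 h2 _ _ (by omega) (by omega) (by omega)] at h4
    have h5 : w r t < C := by
      have : Real.exp (-((r : ℝ) ^ 2 + (t : ℝ) ^ 2)) < 1 := Real.exp_lt_one_iff.2 (by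
        have : (1 : ℝ) ≤ r := by exact_mod_cast h1
        have := sq_nonneg (t : ℝ); nlinarith)
      calc w r t < C * 1 := mul_lt_mul_of_pos_left this hC0
        _ = C := mul_one C
    set q : ℝ := (V (r + 1) t : ℝ) * (V (r - 1) t : ℝ) + (V r (t + 1) : ℝ) * (V r (t - 1) : ℝ) with hq
    have h6 : (V r t : ℝ) = Real.sqrt q := by
      rcases min_cases C (Real.sqrt q) with h7 | h7
      · rw [h7.1] at h3; rw [h3] at h4; linarith
      · rw [h7.1] at h3; exact h3
    change (V r t : ℝ) * (V r t : ℝ) = q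
    rw [h6, Real.mul_self_sqrt]
    have := mul_pos (hmem (V (r + 1) t)) (hmem (V (r - 1) t))
    have := mul_pos (hmem (V r (t + 1))) (hmem (V r (t - 1)))
    linarith

/-- Positive boundary data are realised by a totally positive Toeplitz matrix. -/
theorem exists_pos (m n : ℕ) : ∃ C : ℝ, ∀ (ε : ℝ), 0 < ε → ε ≤ 1 → ∀ g : ℤ → ℝ,
    (∀ t, ε ≤ g t ∧ g t ≤ 1) → ∃ c : ℤ → ℝ, (∀ t, 0 ≤ c t ∧ c t ≤ C) ∧ TNT c m n ∧
      ∀ t, 1 ≤ ell m n t → D c (ell m n t).toNat t = g t := by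
  obtain ⟨C, hC⟩ := dirichlet m n
  refine ⟨C, fun ε hε hε1 g hg => ?_⟩
  obtain ⟨v, hv0, hvC, hvz, hvb, hvi⟩ := hC ε hε hε1 g hg
  let c : ℤ → ℝ := fun t => v 1 t
  have key : ∀ s : ℕ, ∀ t, (s : ℤ) ≤ ell m n t → D c s t = v s t := by
    intro s
    induction s using Nat.strong_induction_on with
    | _ s ih =>
      rcases s with _ | _ | s
      · intro t _; rw [D_zero, hvz]
      · intro t _; rw [D_one]
      · intro t ht
        have h1 := tsystem c s t
        have h2 := hvi (s + 1) t (by omega) (by push_cast at ht ⊢; omega)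
        rw [Nat.add_sub_cancel] at h2
        have hel : ∀ t', t - 1 ≤ t' → t' ≤ t + 1 → ((s + 1 : ℕ) : ℤ) ≤ ell m n t' := by
          intro t' h3 h4
          rw [le_ell] at ht ⊢
          push_cast at ht ⊢
          omega
        rw [ih (s + 1) (by omega) t (hel t (by omega) (by omega)),
          ih s (by omega) t (by push_cast at ht ⊢; omega),
          ih (s + 1) (by omega) (t + 1) (hel _ (by omega) (by omega)),
          ih (s + 1) (by omega) (t - 1) (hel _ (by omega) (by omega))] at h1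
        have h3 : D c (s + 2) t * v s t = v (s + 1 + 1) t * v s t := by linarith
        exact mul_right_cancel₀ (hv0 s t).ne' h3
  refine ⟨c, fun t => ⟨(hv0 1 t).le, hvC 1 t⟩, ?_, ?_⟩
  · intro s I J hI hJ hx hy
    refine (fekete (m := m) (n := n) ?_ s I J hI hJ hx hy).le
    intro s t hs
    rw [key s t hs]; exact hv0 s t
  · intro t ht
    rw [key _ t (by omega)]
    exact hvb _ t (by omega) (by omega)

lemma continuous_mt_det {s : ℕ} (I J : Fin s → ℤ) :
    Continuous (fun c : ℤ → ℝ => (mt (tp c) I J).det) := by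
  apply Continuous.matrix_det
  refine continuous_matrix fun p q => ?_
  exact continuous_apply (J q - I p)

lemma continuous_D (s : ℕ) (t : ℤ) : Continuous (fun c : ℤ → ℝ => D c s t) := by
  apply Continuous.matrix_det
  refine continuous_matrix fun p q => ?_
  exact continuous_apply (t + (q : ℤ) - (p : ℤ))

/-- Every set of diagonals is the set `SS` of some TN Toeplitz matrix. -/
theorem exists_SS (m n : ℕ) (S : Set ℤ) :
    ∃ c : ℤ → ℝ, TNT c m n ∧ SS c m n = {t | t ∈ S ∧ 1 ≤ ell m n t} := by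
  classical
  obtain ⟨C, hC⟩ := exists_pos m n
  have hε : ∀ k : ℕ, (0 : ℝ) < 1 / ((k : ℝ) + 1) := fun k => by positivity
  have hε1 : ∀ k : ℕ, (1 : ℝ) / ((k : ℝ) + 1) ≤ 1 := fun k => by
    rw [div_le_one (by positivity)]
    have : (0 : ℝ) ≤ k := Nat.cast_nonneg k
    linarith
  choose c hc0 hcT hcD using fun k : ℕ => hC (1 / ((k : ℝ) + 1)) (hε k) (hε1 k)
    (fun t => if t ∈ S then 1 else 1 / ((k : ℝ) + 1)) (fun t => by
      split_ifs
      · exact ⟨hε1 k, le_rfl⟩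
      · exact ⟨le_rfl, hε1 k⟩)
  have hcomp : IsCompact (Set.pi Set.univ (fun _ : ℤ => Set.Icc (0 : ℝ) C)) :=
    isCompact_univ_pi fun _ => isCompact_Icc
  obtain ⟨c', -, φ, hφ, hlim⟩ := hcomp.tendsto_subseq (x := c) (fun k t _ => hc0 k t)
  have hlimD : ∀ s t, Tendsto (fun k => D (c (φ k)) s t) atTop (𝓝 (D c' s t)) := fun s t =>
    ((continuous_D s t).tendsto c').comp hlim
  refine ⟨c', ?_, ?_⟩
  · intro s I J hI hJ hx hy
    exact ge_of_tendsto' (((continuous_mt_det I J).tendsto c').comp hlim)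
      (fun k => hcT (φ k) s I J hI hJ hx hy)
  · ext t
    constructor
    · rintro ⟨h1, h2⟩
      refine ⟨?_, h1⟩
      by_contra hS
      apply h2
      have h3 : Tendsto (fun k => D (c (φ k)) (ell m n t).toNat t) atTop (𝓝 0) := by
        have h4 : (fun k => D (c (φ k)) (ell m n t).toNat t) = fun k => 1 / (((φ k : ℕ) : ℝ) + 1) := by
          funext k
          rw [hcD (φ k) t h1, if_neg hS]
        rw [h4]
        exact (tendsto_one_div_add_atTop_nhds_zero_nat (𝕜 := ℝ)).comp hφ.tendsto_atTop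
      exact tendsto_nhds_unique (hlimD _ t) h3
    · rintro ⟨hS, h1⟩
      refine ⟨h1, ?_⟩
      have h3 : Tendsto (fun k => D (c (φ k)) (ell m n t).toNat t) atTop (𝓝 1) := by
        have h4 : (fun k => D (c (φ k)) (ell m n t).toNat t) = fun _ => 1 := by
          funext k
          rw [hcD (φ k) t h1, if_pos hS]
        rw [h4]
        exact tendsto_const_nhds
      rw [tendsto_nhds_unique (hlimD _ t) h3]
      exact one_ne_zero

end Pool.Agent.Helper54_Toeplitz
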