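import Pool.Agent.Helper54_Toeplitz.Star

set_option autoImplicit false

namespace Pool.Agent.Helper54_Toeplitz

open Matrix

/-- Length of the diagonal `t` of an `m × n` matrix (nonpositive if there is no such diagonal). -/
def ell (m n : ℕ) (t : ℤ) : ℤ := min (min (m : ℤ) n) (min ((m : ℤ) + t) ((n : ℤ) - t))

lemma le_ell {m n : ℕ} {t s : ℤ} :
    s ≤ ell m n t ↔ s ≤ m ∧ s ≤ n ∧ s ≤ m + t ∧ s ≤ n - t := by
  simp only [ell, le_min_iff, and_assoc]

lemma fits {m n s : ℕ} {t : ℤ} (h : (s : ℤ) ≤ ell m n t) :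
    ∃ x y : ℤ, 0 ≤ x ∧ x + s ≤ m ∧ 0 ≤ y ∧ y + s ≤ n ∧ y - x = t := by
  rw [le_ell] at h
  refine ⟨max 0 (-t), max 0 (-t) + t, le_max_left _ _, ?_, ?_, ?_, by ring⟩
  · rcases max_cases 0 (-t) with h1 | h1 <;> omega
  · rcases max_cases 0 (-t) with h1 | h1 <;> omega
  · rcases max_cases 0 (-t) with h1 | h1 <;> omega

/-- Total nonnegativity of the `m × n` Toeplitz matrix. -/
def TNT (c : ℤ → ℝ) (m n : ℕ) : Prop := TNB (tp c) 0 ((m : ℤ) - 1) 0 ((n : ℤ) - 1)

lemma D_nonneg {c : ℤ → ℝ} {m n s : ℕ} (h : TNT c m n) {t : ℤ} (hs : (s : ℤ) ≤ ell m n t) :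
    0 ≤ D c s t := by
  obtain ⟨x, y, h1, h2, h3, h4, rfl⟩ := fits hs
  rw [← det_contiguous c s (fun p => x + (p : ℤ)) (fun q => y + (q : ℤ)) x y (fun _ => rfl)
    (fun _ => rfl)]
  exact h _ _ _ (strictMono_contig x _) (strictMono_contig y _)
    (fun p => by have := p.2; constructor <;> omega) (fun p => by have := p.2; constructor <;> omega)

lemma D_ne_zero_of_le' {c : ℤ → ℝ} {m n s : ℕ} (h : TNT c m n) {t : ℤ} (hs : (s : ℤ) ≤ ell m n t)
    (hD : D c s t ≠ 0) {s' : ℕ} (hs' : s' ≤ s) : D c s' t ≠ 0 := by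
  obtain ⟨x, y, h1, h2, h3, h4, rfl⟩ := fits hs
  exact D_ne_zero_of_le h h1 (by omega) h3 (by omega) hD s' hs'

lemma no_gap {c : ℤ → ℝ} {m n s : ℕ} (h : TNT c m n) (hsm : s + 1 < min m n) {t1 t2 : ℤ}
    (h12 : t1 + 2 ≤ t2) (he1 : ((s + 1 : ℕ) : ℤ) ≤ ell m n t1) (he2 : ((s + 1 : ℕ) : ℤ) ≤ ell m n t2)
    (hD1 : D c (s + 1) t1 ≠ 0) (hD2 : D c (s + 1) t2 ≠ 0)
    (hz : ∀ t, t1 < t → t < t2 → D c (s + 1) t = 0)
    (ih : ∀ s' ≤ s, ∀ t, t1 ≤ t → t ≤ t2 → D c s' t ≠ 0) : False := by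
  rw [le_ell] at he1 he2
  push_cast at he1 he2
  obtain ⟨hsm1, hsm2⟩ := lt_min_iff.1 hsm
  set i : ℤ := max 0 (1 - t2) with hi
  have hi1 : 0 ≤ i := le_max_left _ _
  have hi2 : 1 - t2 ≤ i := le_max_right _ _
  have hi3 : i ≤ n - (s + 1) - t2 := max_le (by omega) (by omega)
  have hi4 : i ≤ m - (s + 1) - 1 := max_le (by omega) (by omega)
  set a : ℤ := max (i + 1) (-t1) with ha
  have ha1 : i + 1 ≤ a := le_max_left _ _
  have ha2 : -t1 ≤ a := le_max_right _ _
  have ha3 : a ≤ m - (s + 1) := max_le (by omega) (by omega)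
  have ha4 : a ≤ i + t2 - t1 - 1 := max_le (by omega) (by omega)
  let R : Fin (s + 2) → ℤ := Fin.snoc (α := fun _ => ℤ) (fun p : Fin (s + 1) => i + (p : ℤ)) (a + s)
  let C : Fin (s + 2) → ℤ := Fin.cons (α := fun _ => ℤ) (t1 + a)
    (fun q : Fin (s + 1) => i + t2 + (q : ℤ))
  have hRc : ∀ p : Fin (s + 1), R p.castSucc = i + (p : ℤ) := fun p => by simp [R]
  have hRl : R (Fin.last (s + 1)) = a + s := by simp [R]
  have hC0 : C 0 = t1 + a := by simp [C]
  have hCs : ∀ q : Fin (s + 1), C q.succ = i + t2 + (q : ℤ) := fun q => by simp [C]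
  have hR : StrictMono R := by
    rw [Fin.strictMono_iff_lt_succ]
    intro j
    refine Fin.lastCases ?_ (fun j' => ?_) j
    · rw [hRc, Fin.succ_last, hRl]; simp; omega
    · rw [hRc, Fin.succ_castSucc, hRc]; simp
  have hC : StrictMono C := by
    rw [Fin.strictMono_iff_lt_succ]
    intro j
    refine Fin.cases ?_ (fun j' => ?_) j
    · rw [Fin.castSucc_zero, hC0, hCs]; simp; omega
    · rw [hCs, ← Fin.succ_castSucc, hCs]; simp
  have hR0 : R 0 = i := by have := hRc 0; simpa using this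
  have hCl : C (Fin.last (s + 1)) = i + t2 + s := by
    have := hCs (Fin.last s); simpa using this
  have bR := strictMono_bounds hR
  have bC := strictMono_bounds hC
  rw [hR0, hRl] at bR
  rw [hC0, hCl] at bC
  have bxR : ∀ {u : ℕ} (f : Fin u → Fin (s + 2)) (p : Fin u), 0 ≤ (R ∘ f) p ∧
      (R ∘ f) p ≤ (m : ℤ) - 1 := fun f p => by
    have := bR (f p); simp only [Function.comp_apply]; constructor <;> omega
  have bxC : ∀ {u : ℕ} (f : Fin u → Fin (s + 2)) (p : Fin u), 0 ≤ (C ∘ f) p ∧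
      (C ∘ f) p ≤ (n : ℤ) - 1 := fun f p => by
    have := bC (f p); simp only [Function.comp_apply]; constructor <;> omega
  have hlt1 : R 0 + 1 ≤ R 1 := by
    have : R 0 < R 1 := hR (by simp)
    omega
  have hlt2 : C (Fin.castSucc (Fin.last s)) + 1 ≤ C (Fin.last (s + 1)) := by
    have : C (Fin.castSucc (Fin.last s)) < C (Fin.last (s + 1)) := hC (Fin.castSucc_lt_last _)
    omega
  rw [hR0] at hlt1
  rw [hCl] at hlt2
  have hdj := desnanot (mt (tp c) R C)
  simp only [mt_submatrix] at hdj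
  -- the upper right corner
  have e1 : (mt (tp c) (R ∘ Fin.castSucc) (C ∘ Fin.succ)).det = D c (s + 1) t2 := by
    rw [det_contiguous c (s + 1) (R ∘ Fin.castSucc) (C ∘ Fin.succ) i (i + t2) (fun p => hRc p)
      (fun q => hCs q)]
    congr 1; ring
  have p1 : 0 < (mt (tp c) (R ∘ Fin.castSucc) (C ∘ Fin.succ)).det :=
    lt_of_le_of_ne (h _ _ _ (hR.comp Fin.strictMono_castSucc) (hC.comp Fin.strictMono_succ)
      (bxR _) (bxC _)) (by rw [e1]; exact hD2.symm)
  have p2 : 0 < (mt (tp c) (R ∘ Fin.succ) (C ∘ Fin.castSucc)).det := by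
    refine lt_of_le_of_ne (h _ _ _ (hR.comp Fin.strictMono_succ) (hC.comp Fin.strictMono_castSucc)
      (bxR _) (bxC _)) (Ne.symm ?_)
    refine det_ne_zero_of_good h _ _ (hR.comp Fin.strictMono_succ) (hC.comp Fin.strictMono_castSucc)
      (bxR _) (bxC _) ?_
    intro k l hkl
    have mR := hR.comp (Fin.strictMono_succ (n := s + 1))
    have mC := hC.comp (Fin.strictMono_castSucc (n := s + 1))
    have a1 := gap_le mR hkl
    have a2 := gap_le mC hkl
    have a3 := gap_le mR (Fin.le_last l)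
    have a4 := gap_le mC (Fin.zero_le k)
    have a5 := gap_le mR (Fin.zero_le k)
    have a6 := gap_le mC (Fin.le_last l)
    have f1 : (R ∘ Fin.succ) (Fin.last s) = a + s := by
      simp only [Function.comp_apply, Fin.succ_last, hRl]
    have f2 : (C ∘ Fin.castSucc) 0 = t1 + a := hC0
    have f3 : (R ∘ Fin.succ) 0 = R 1 := rfl
    have f4 : (C ∘ Fin.castSucc) (Fin.last s) = C (Fin.castSucc (Fin.last s)) := rfl
    rw [f1] at a3
    rw [f2] at a4
    rw [f3] at a5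
    rw [f4] at a6
    simp only [Fin.val_last, Fin.val_zero, Nat.cast_zero, sub_zero] at a3 a4 a5 a6
    have hkl' : (k : ℕ) ≤ l := hkl
    have hl' := l.2
    set t := (C ∘ Fin.castSucc) k - (R ∘ Fin.succ) l + ((l : ℤ) - k) with ht
    refine ⟨t, le_refl _, by omega, ?_⟩
    by_cases hs : (l : ℕ) - k + 1 ≤ s
    · exact ih _ hs t (by omega) (by omega)
    · have hk0 : (k : ℕ) = 0 := by omega
      have hll : (l : ℕ) = s := by omega
      have hk0' : k = 0 := Fin.ext hk0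
      have hll' : l = Fin.last s := Fin.ext hll
      subst hk0' hll'
      have : t = t1 := by rw [ht, f1, f2]; simp only [Fin.val_last, Fin.val_zero]; push_cast; ring
      rw [this]
      simpa using hD1
  have p3 : (mt (tp c) (R ∘ Fin.castSucc) (C ∘ Fin.castSucc)).det = 0 := by
    by_contra hne
    have hG := good_of_det_ne_zero h _ _ (hR.comp Fin.strictMono_castSucc)
      (hC.comp Fin.strictMono_castSucc) (bxR _) (bxC _) hne
    obtain ⟨t, h1, h2, h3⟩ := hG 0 (Fin.last s) (Fin.zero_le _)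
    have f1 : (R ∘ Fin.castSucc) (Fin.last s) = i + s := by
      simp only [Function.comp_apply, hRc, Fin.val_last]
    have f2 : (C ∘ Fin.castSucc) 0 = t1 + a := hC0
    have f3 : (R ∘ Fin.castSucc) 0 = i := hR0
    have f4 : (C ∘ Fin.castSucc) (Fin.last s) = C (Fin.castSucc (Fin.last s)) := rfl
    rw [f1, f2] at h1
    rw [f3, f4] at h2
    simp only [Fin.val_last, Fin.val_zero, Nat.cast_zero, sub_zero, Nat.sub_zero] at h1 h2 h3
    exact h3 (hz t (by omega) (by omega))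
  have q1 : 0 ≤ (mt (tp c) R C).det := h _ _ _ hR hC (bxR id) (bxC id)
  have q2 : 0 ≤ (mt (tp c) (R ∘ fun p : Fin s => p.succ.castSucc)
      (C ∘ fun q : Fin s => q.succ.castSucc)).det :=
    h _ _ _ (hR.comp (Fin.strictMono_castSucc.comp Fin.strictMono_succ))
      (hC.comp (Fin.strictMono_castSucc.comp Fin.strictMono_succ)) (bxR _) (bxC _)
  rw [p3, zero_mul, zero_sub] at hdj
  have := mul_nonneg q1 q2
  have := mul_pos p1 p2
  linarith

/-- Below the maximal order, the support of the contiguous minors of a fixed order is an interval. -/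
theorem support_interval {c : ℤ → ℝ} {m n : ℕ} (h : TNT c m n) :
    ∀ s : ℕ, s < min m n → ∀ t1 t2 t : ℤ, t1 ≤ t → t ≤ t2 → (s : ℤ) ≤ ell m n t1 →
      (s : ℤ) ≤ ell m n t2 → D c s t1 ≠ 0 → D c s t2 ≠ 0 → D c s t ≠ 0 := by
  intro s
  induction s using Nat.strong_induction_on with
  | _ s ih =>
    rcases s with _ | s
    · intro _ t1 t2 t _ _ _ _ _ _
      rw [D_zero]; exact one_ne_zero
    intro hs t1 t2 t h1 h2 he1 he2 hD1 hD2 hDt
    obtain ⟨u1, ⟨hu1a, hu1b, hu1c⟩, hu1max⟩ := Int.exists_greatest_of_bdd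
      (P := fun u => t1 ≤ u ∧ u ≤ t ∧ D c (s + 1) u ≠ 0) ⟨t, fun z hz => hz.2.1⟩
      ⟨t1, le_rfl, h1, hD1⟩
    obtain ⟨u2, ⟨hu2a, hu2b, hu2c⟩, hu2min⟩ := Int.exists_least_of_bdd
      (P := fun u => t ≤ u ∧ u ≤ t2 ∧ D c (s + 1) u ≠ 0) ⟨t, fun z hz => hz.1⟩
      ⟨t2, h2, le_rfl, hD2⟩
    have hne1 : u1 ≠ t := fun h => hu1c (h ▸ hDt)
    have hne2 : u2 ≠ t := fun h => hu2c (h ▸ hDt)
    have hz : ∀ v, u1 < v → v < u2 → D c (s + 1) v = 0 := by
      intro v hv1 hv2
      by_contra hne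
      rcases le_total v t with hvt | hvt
      · have := hu1max v ⟨by omega, hvt, hne⟩
        omega
      · have := hu2min v ⟨hvt, by omega, hne⟩
        omega
    have hel : ∀ u, t1 ≤ u → u ≤ t2 → ((s + 1 : ℕ) : ℤ) ≤ ell m n u := by
      intro u hu1 hu2
      rw [le_ell] at he1 he2 ⊢
      omega
    refine no_gap h hs (t1 := u1) (t2 := u2) (by omega) (hel _ hu1a (by omega))
      (hel _ (by omega) hu2b) hu1c hu2c hz ?_
    intro s' hs' v hv1 hv2
    refine ih s' (by omega) (by omega) u1 u2 v hv1 hv2 ?_ ?_ ?_ ?_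
    · have := hel u1 hu1a (by omega)
      push_cast at this; omega
    · have := hel u2 (by omega) hu2b
      push_cast at this; omega
    · exact D_ne_zero_of_le' h (hel _ hu1a (by omega)) hu1c (by omega)
    · exact D_ne_zero_of_le' h (hel _ (by omega) hu2b) hu2c (by omega)

/-- The diagonals whose largest square block is nonsingular. -/
def SS (c : ℤ → ℝ) (m n : ℕ) : Set ℤ := {t | 1 ≤ ell m n t ∧ D c (ell m n t).toNat t ≠ 0}

lemma exists_ge {c : ℤ → ℝ} {m n : ℕ} (_h : TNT c m n) :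
    ∀ (d s : ℕ) (t : ℤ), 1 ≤ s → s + d = min m n → (s : ℤ) ≤ ell m n t → D c s t ≠ 0 →
      ∃ t' ∈ SS c m n, (s : ℤ) ≤ ell m n t' ∧ t ≤ t' := by
  intro d
  induction d with
  | zero =>
    intro s t h1 h2 h3 h4
    have : ell m n t = s := by
      have h5 : ell m n t ≤ min (m : ℤ) n := min_le_left _ _
      have h6 : min (m : ℤ) n = s := by omega
      omega
    refine ⟨t, ⟨by omega, ?_⟩, h3, le_rfl⟩
    rw [this, Int.toNat_natCast]; exact h4
  | succ d ih =>
    intro s t h1 h2 h3 h4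
    obtain ⟨b, ⟨hb1, hb2, hb3⟩, hmax⟩ := Int.exists_greatest_of_bdd
      (P := fun u => t ≤ u ∧ (s : ℤ) ≤ ell m n u ∧ D c s u ≠ 0)
      ⟨n, fun z hz => by have := (le_ell.1 hz.2.1).2.2.2; omega⟩ ⟨t, le_rfl, h3, h4⟩
    by_cases hb : ell m n b = s
    · refine ⟨b, ⟨by omega, ?_⟩, hb2, hb1⟩
      rw [hb, Int.toNat_natCast]; exact hb3
    · have hb4 : ((s + 1 : ℕ) : ℤ) ≤ ell m n b := by push_cast; omega
      obtain ⟨s', rfl⟩ : ∃ s', s = s' + 1 := ⟨s - 1, by omega⟩
      have hts := tsystem c s' b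
      have hz : D c (s' + 1) (b + 1) = 0 := by
        by_contra hne
        have := hmax (b + 1) ⟨by omega, by
          rw [le_ell] at hb4 ⊢; push_cast at hb4 ⊢; omega, hne⟩
        omega
      rw [hz, zero_mul, add_zero] at hts
      have hne : D c (s' + 2) b ≠ 0 := by
        intro h0
        rw [h0, zero_mul] at hts
        exact hb3 (mul_self_eq_zero.1 hts)
      obtain ⟨t', ht', hs', hle⟩ := ih (s' + 2) b (by omega) (by omega) (by
        push_cast at hb4 ⊢; omega) hne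
      refine ⟨t', ht', ?_, hb1.trans hle⟩
      push_cast at hs' ⊢; omega

lemma exists_le {c : ℤ → ℝ} {m n : ℕ} (_h : TNT c m n) :
    ∀ (d s : ℕ) (t : ℤ), 1 ≤ s → s + d = min m n → (s : ℤ) ≤ ell m n t → D c s t ≠ 0 →
      ∃ t' ∈ SS c m n, (s : ℤ) ≤ ell m n t' ∧ t' ≤ t := by
  intro d
  induction d with
  | zero =>
    intro s t h1 h2 h3 h4
    have : ell m n t = s := by
      have h5 : ell m n t ≤ min (m : ℤ) n := min_le_left _ _
      have h6 : min (m : ℤ) n = s := by omega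
      omega
    refine ⟨t, ⟨by omega, ?_⟩, h3, le_rfl⟩
    rw [this, Int.toNat_natCast]; exact h4
  | succ d ih =>
    intro s t h1 h2 h3 h4
    obtain ⟨b, ⟨hb1, hb2, hb3⟩, hmin⟩ := Int.exists_least_of_bdd
      (P := fun u => u ≤ t ∧ (s : ℤ) ≤ ell m n u ∧ D c s u ≠ 0)
      ⟨-m, fun z hz => by have := (le_ell.1 hz.2.1).2.2.1; omega⟩ ⟨t, le_rfl, h3, h4⟩
    by_cases hb : ell m n b = s
    · refine ⟨b, ⟨by omega, ?_⟩, hb2, hb1⟩
      rw [hb, Int.toNat_natCast]; exact hb3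
    · have hb4 : ((s + 1 : ℕ) : ℤ) ≤ ell m n b := by push_cast; omega
      obtain ⟨s', rfl⟩ : ∃ s', s = s' + 1 := ⟨s - 1, by omega⟩
      have hts := tsystem c s' b
      have hz : D c (s' + 1) (b - 1) = 0 := by
        by_contra hne
        have := hmin (b - 1) ⟨by omega, by
          rw [le_ell] at hb4 ⊢; push_cast at hb4 ⊢; omega, hne⟩
        omega
      rw [hz, mul_zero, add_zero] at hts
      have hne : D c (s' + 2) b ≠ 0 := by
        intro h0
        rw [h0, zero_mul] at hts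
        exact hb3 (mul_self_eq_zero.1 hts)
      obtain ⟨t', ht', hs', hle⟩ := ih (s' + 2) b (by omega) (by omega) (by
        push_cast at hb4 ⊢; omega) hne
      refine ⟨t', ht', ?_, hle.trans hb1⟩
      push_cast at hs' ⊢; omega

/-- The combinatorial condition in terms of a set of diagonals. -/
def Cond (m n : ℕ) (S : Set ℤ) {s : ℕ} (I J : Fin s → ℤ) : Prop :=
  ∀ k l : Fin s, k ≤ l → ∃ t ∈ S, ∃ t' ∈ S, (l : ℤ) - k + 1 ≤ ell m n t ∧
    (l : ℤ) - k + 1 ≤ ell m n t' ∧ J k - I l + ((l : ℤ) - k) ≤ t ∧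
    t' ≤ J l - I k - ((l : ℤ) - k) ∧ ((l : ℤ) - k + 1 < min (m : ℤ) n ∨ t = t')

theorem good_iff_cond {c : ℤ → ℝ} {m n : ℕ} (h : TNT c m n) {s : ℕ} (I J : Fin s → ℤ)
    (hI : StrictMono I) (hJ : StrictMono J) (hx : ∀ p, 0 ≤ I p ∧ I p ≤ (m : ℤ) - 1)
    (hy : ∀ q, 0 ≤ J q ∧ J q ≤ (n : ℤ) - 1) : Good c I J ↔ Cond m n (SS c m n) I J := by
  have hbase : ∀ k l : Fin s, k ≤ l → ∀ t : ℤ, J k - I l + ((l : ℤ) - k) ≤ t →
      t ≤ J l - I k - ((l : ℤ) - k) → (((l : ℕ) - k + 1 : ℕ) : ℤ) ≤ ell m n t := by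
    intro k l hkl t ht1 ht2
    have a1 := gap_le hI hkl
    have a2 := gap_le hJ hkl
    have b1 := hx k
    have b2 := hx l
    have b3 := hy k
    have b4 := hy l
    have hkl' : (k : ℕ) ≤ l := hkl
    rw [le_ell]
    push_cast [hkl']
    omega
  constructor
  · intro hG k l hkl
    obtain ⟨t0, h1, h2, h3⟩ := hG k l hkl
    have h4 := hbase k l hkl t0 h1 h2
    have hkl' : (k : ℕ) ≤ l := hkl
    have hcast : (((l : ℕ) - k + 1 : ℕ) : ℤ) = (l : ℤ) - k + 1 := by push_cast [hkl']; ring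
    have hle : (l : ℕ) - k + 1 ≤ min m n := by
      have h5 : ell m n t0 ≤ min (m : ℤ) n := min_le_left _ _
      omega
    by_cases hlt : (l : ℕ) - k + 1 < min m n
    · obtain ⟨t, ht, hts, htt⟩ := exists_ge h (min m n - ((l : ℕ) - k + 1)) _ t0 (by omega)
        (by omega) h4 h3
      obtain ⟨t', ht', hts', htt'⟩ := exists_le h (min m n - ((l : ℕ) - k + 1)) _ t0 (by omega)
        (by omega) h4 h3
      rw [hcast] at hts hts'
      exact ⟨t, ht, t', ht', hts, hts', by omega, by omega, Or.inl (by omega)⟩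
    · have h5 : ell m n t0 ≤ min (m : ℤ) n := min_le_left _ _
      have h6 : ell m n t0 = (l : ℤ) - k + 1 := by omega
      refine ⟨t0, ⟨by omega, ?_⟩, t0, ⟨by omega, ?_⟩, by omega, by omega, by omega, by omega,
        Or.inr rfl⟩
      · rw [h6, ← hcast, Int.toNat_natCast]; exact h3
      · rw [h6, ← hcast, Int.toNat_natCast]; exact h3
  · intro hC k l hkl
    obtain ⟨t, ht, t', ht', h1, h2, h3, h4, h5⟩ := hC k l hkl
    have a1 := gap_le hI hkl
    have a2 := gap_le hJ hkl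
    have hkl' : (k : ℕ) ≤ l := hkl
    have hcast : (((l : ℕ) - k + 1 : ℕ) : ℤ) = (l : ℤ) - k + 1 := by push_cast [hkl']; ring
    have hel : ∀ u, u ∈ SS c m n → (l : ℤ) - k + 1 ≤ ell m n u → D c ((l : ℕ) - k + 1) u ≠ 0 := by
      intro u hu hu'
      refine D_ne_zero_of_le' h (s := (ell m n u).toNat) ?_ hu.2 (by omega)
      have := hu.1
      omega
    have ht0 := hel t ht h1
    have ht0' := hel t' ht' h2
    by_cases c1 : t ≤ J l - I k - ((l : ℤ) - k)
    · exact ⟨t, h3, c1, ht0⟩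
    · by_cases c2 : J k - I l + ((l : ℤ) - k) ≤ t'
      · exact ⟨t', c2, h4, ht0'⟩
      · rcases h5 with h5 | h5
        · refine ⟨J k - I l + ((l : ℤ) - k), le_rfl, by omega, ?_⟩
          refine support_interval h _ ?_ t' t _ (by omega) (by omega) ?_ ?_ ht0' ht0
          · omega
          · rw [hcast]; exact h2
          · rw [hcast]; exact h1
        · omega

end Pool.Agent.Helper54_Toeplitz
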