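import Pool.Agent.Helper54_Toeplitz.Block2

set_option autoImplicit false

namespace Pool.Agent.Helper54_Toeplitz

open Matrix

/-- The doubly infinite Toeplitz matrix of a sequence. -/
def tp (c : ℤ → ℝ) : ℤ → ℤ → ℝ := fun x y => c (y - x)

/-- Contiguous `r × r` Toeplitz minor centred at the diagonal `t`. -/
noncomputable def D (c : ℤ → ℝ) (r : ℕ) (t : ℤ) : ℝ :=
  (of fun p q : Fin r => c (t + (q : ℤ) - (p : ℤ))).det

lemma D_zero (c : ℤ → ℝ) (t : ℤ) : D c 0 t = 1 := by simp [D]

lemma D_one (c : ℤ → ℝ) (t : ℤ) : D c 1 t = c t := by simp [D]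

lemma det_contiguous (c : ℤ → ℝ) (s : ℕ) (I J : Fin s → ℤ) (x y : ℤ)
    (hI : ∀ p, I p = x + p) (hJ : ∀ q, J q = y + q) : (mt (tp c) I J).det = D c s (y - x) := by
  rw [D]
  congr 1
  ext p q
  simp only [mt_apply, tp, of_apply, hI, hJ]
  congr 1
  ring

lemma tsystem (c : ℤ → ℝ) (r : ℕ) (t : ℤ) :
    D c (r + 1) t * D c (r + 1) t =
      D c (r + 2) t * D c r t + D c (r + 1) (t + 1) * D c (r + 1) (t - 1) := by
  have h := desnanot (of fun p q : Fin (r + 2) => c (t + (q : ℤ) - (p : ℤ)))
  have e1 : ((of fun p q : Fin (r + 2) => c (t + (q : ℤ) - (p : ℤ))).submatrix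
      (fun p : Fin r => p.succ.castSucc) (fun q : Fin r => q.succ.castSucc)).det = D c r t := by
    rw [D]; congr 1; ext p q; simp only [submatrix_apply, of_apply]; congr 1
    simp only [Fin.val_castSucc, Fin.val_succ]; push_cast; ring
  have e2 : ((of fun p q : Fin (r + 2) => c (t + (q : ℤ) - (p : ℤ))).submatrix
      Fin.castSucc Fin.castSucc).det = D c (r + 1) t := by
    rw [D]; congr 1
  have e3 : ((of fun p q : Fin (r + 2) => c (t + (q : ℤ) - (p : ℤ))).submatrix
      Fin.succ Fin.succ).det = D c (r + 1) t := by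
    rw [D]; congr 1; ext p q; simp only [submatrix_apply, of_apply]; congr 1
    simp only [Fin.val_succ]; push_cast; ring
  have e4 : ((of fun p q : Fin (r + 2) => c (t + (q : ℤ) - (p : ℤ))).submatrix
      Fin.castSucc Fin.succ).det = D c (r + 1) (t + 1) := by
    rw [D]; congr 1; ext p q; simp only [submatrix_apply, of_apply]; congr 1
    simp only [Fin.val_castSucc, Fin.val_succ]; push_cast; ring
  have e5 : ((of fun p q : Fin (r + 2) => c (t + (q : ℤ) - (p : ℤ))).submatrix
      Fin.succ Fin.castSucc).det = D c (r + 1) (t - 1) := by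
    rw [D]; congr 1; ext p q; simp only [submatrix_apply, of_apply]; congr 1
    simp only [Fin.val_castSucc, Fin.val_succ]; push_cast; ring
  rw [e1, e2, e3, e4, e5] at h
  have e6 : (of fun p q : Fin (r + 2) => c (t + (q : ℤ) - (p : ℤ))).det = D c (r + 2) t := rfl
  rw [e6] at h
  linarith

lemma gap_le {s : ℕ} {I : Fin s → ℤ} (hI : StrictMono I) {p q : Fin s} (h : p ≤ q) :
    (q : ℤ) - p ≤ I q - I p := by
  obtain ⟨q, hq⟩ := q
  obtain ⟨p, hp⟩ := p
  simp only [Fin.mk_le_mk] at h
  induction q, h using Nat.le_induction with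
  | base => simp
  | succ q hpq ih =>
    have h1 := ih (by omega)
    have h2 : I ⟨q, by omega⟩ < I ⟨q + 1, hq⟩ := hI (by simp)
    push_cast at *
    omega

lemma gap_zero_last {s : ℕ} {I : Fin (s + 1) → ℤ} (hI : StrictMono I) :
    I 0 + s ≤ I (Fin.last s) := by
  have := gap_le hI (Fin.zero_le (Fin.last s))
  simp at this
  omega

/-- Dispersion induction. -/
lemma dispersion_induction {s : ℕ} (x0 x1 : ℤ) (Q : (Fin (s + 1) → ℤ) → Prop)
    (base : ∀ x, x0 ≤ x → x + s ≤ x1 → Q (fun p => x + (p : ℤ)))
    (step : ∀ ρ : Fin (s + 2) → ℤ, StrictMono ρ → x0 ≤ ρ 0 → ρ (Fin.last (s + 1)) ≤ x1 →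
      ∀ k : Fin (s + 2), k ≠ 0 → k ≠ Fin.last (s + 1) → Q (ρ ∘ Fin.succ) → Q (ρ ∘ Fin.castSucc) →
      Q (ρ ∘ k.succAbove)) :
    ∀ K : Fin (s + 1) → ℤ, StrictMono K → x0 ≤ K 0 → K (Fin.last s) ≤ x1 → Q K := by
  suffices H : ∀ d : ℕ, ∀ K : Fin (s + 1) → ℤ, StrictMono K → x0 ≤ K 0 → K (Fin.last s) ≤ x1 →
      K (Fin.last s) - K 0 = s + d → Q K by
    intro K hK h0 h1
    have := gap_zero_last hK
    exact H (K (Fin.last s) - K 0 - s).toNat K hK h0 h1 (by omega)
  intro d
  induction d using Nat.strong_induction_on with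
  | _ d ih =>
    intro K hK h0 h1 hd
    by_cases hc : ∀ v, K 0 ≤ v → v ≤ K (Fin.last s) → ∃ p, K p = v
    · -- contiguous
      have hKp : K = fun p : Fin (s + 1) => K 0 + (p : ℤ) := by
        have hcard : (Finset.Icc (K 0) (K (Fin.last s))).card ≤ s + 1 := by
          have : Finset.Icc (K 0) (K (Fin.last s)) ⊆ Finset.univ.image K := by
            intro v hv
            rw [Finset.mem_Icc] at hv
            obtain ⟨p, hp⟩ := hc v hv.1 hv.2
            exact Finset.mem_image.2 ⟨p, Finset.mem_univ _, hp⟩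
          refine (Finset.card_le_card this).trans (Finset.card_image_le.trans ?_)
          simp
        rw [Int.card_Icc] at hcard
        have hd0 : d = 0 := by omega
        funext p
        have g1 := gap_le hK (Fin.zero_le p)
        have g2 := gap_le hK (Fin.le_last p)
        simp only [Fin.val_zero, Fin.val_last] at g1 g2
        push_cast at g1 g2
        omega
      rw [hKp]
      refine base _ h0 ?_
      have := gap_zero_last hK
      omega
    · push Not at hc
      obtain ⟨v, hv0, hv1, hv⟩ := hc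
      obtain ⟨k, ρ, hk0, hkl, hρ, hρk, hρK⟩ := exists_insert K hK v
        (lt_of_le_of_ne hv0 (hv 0)) (lt_of_le_of_ne hv1 (hv _).symm) hv
      have e0 : ρ 0 = K 0 := by
        rw [← hρK, Function.comp_apply, Fin.succAbove_ne_zero_zero hk0]
      have e1 : ρ (Fin.last (s + 1)) = K (Fin.last s) := by
        rw [← hρK, Function.comp_apply, Fin.succAbove_ne_last_last hkl]
      have hs1 : ρ 0 < ρ 1 := hρ (by simp)
      have hs2 : ρ (Fin.castSucc (Fin.last s)) < ρ (Fin.last (s + 1)) :=
        hρ (Fin.castSucc_lt_last _)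
      rw [← hρK]
      refine step ρ hρ (by rw [e0]; exact h0) (by rw [e1]; exact h1) k hk0 hkl ?_ ?_
      · have hm : StrictMono (ρ ∘ Fin.succ) := hρ.comp Fin.strictMono_succ
        have hg := gap_zero_last hm
        have f0 : (ρ ∘ Fin.succ) 0 = ρ 1 := rfl
        have f1 : (ρ ∘ Fin.succ) (Fin.last s) = ρ (Fin.last (s + 1)) := by
          simp only [Function.comp_apply, Fin.succ_last]
        rw [f0, f1] at hg
        refine ih (ρ (Fin.last (s + 1)) - ρ 1 - s).toNat (by omega) _ hm
          (by rw [f0]; omega) (by rw [f1]; omega) (by rw [f0, f1]; omega)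
      · have hm : StrictMono (ρ ∘ Fin.castSucc) := hρ.comp Fin.strictMono_castSucc
        have hg := gap_zero_last hm
        have f0 : (ρ ∘ Fin.castSucc) 0 = ρ 0 := rfl
        have f1 : (ρ ∘ Fin.castSucc) (Fin.last s) = ρ (Fin.castSucc (Fin.last s)) := rfl
        rw [f0, f1] at hg
        refine ih (ρ (Fin.castSucc (Fin.last s)) - ρ 0 - s).toNat (by omega) _ hm
          (by rw [f0]; omega) (by rw [f1]; omega) (by rw [f0, f1]; omega)

/-- Total nonnegativity passes to `TNM` for submatrices. -/
lemma TNB.tnm {a : ℤ → ℤ → ℝ} {x0 x1 y0 y1 : ℤ} (h : TNB a x0 x1 y0 y1) {s t : ℕ}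
    {I : Fin s → ℤ} {J : Fin t → ℤ} (hI : StrictMono I) (hJ : StrictMono J)
    (hx : ∀ p, x0 ≤ I p ∧ I p ≤ x1) (hy : ∀ q, y0 ≤ J q ∧ J q ≤ y1) : TNM (mt a I J) := by
  intro k f g hf hg
  rw [mt_submatrix]
  exact h k _ _ (hI.comp hf) (hJ.comp hg) (fun p => hx _) (fun q => hy _)

lemma strictMono_contig (x : ℤ) (s : ℕ) : StrictMono (fun p : Fin s => x + (p : ℤ)) := by
  intro p q h
  have : (p : ℕ) < q := h
  simp only
  omega

/-- Nestedness: in a TN block, nonvanishing of a contiguous minor passes to smaller ones. -/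
lemma D_ne_zero_of_le {c : ℤ → ℝ} {x0 x1 y0 y1 : ℤ} (h : TNB (tp c) x0 x1 y0 y1) {x y : ℤ} :
    ∀ {s : ℕ}, x0 ≤ x → x + s ≤ x1 + 1 → y0 ≤ y → y + s ≤ y1 + 1 → D c s (y - x) ≠ 0 →
    ∀ s' ≤ s, D c s' (y - x) ≠ 0 := by
  intro s
  induction s with
  | zero => intro _ _ _ _ hD s' hs'; rw [Nat.le_zero.1 hs']; exact hD
  | succ s ih =>
    intro h1 h2 h3 h4 hD s' hs'
    rcases Nat.lt_or_ge s' (s + 1) with hlt | hge
    · push_cast at h2 h4
      refine ih h1 (by omega) h3 (by omega) ?_ s' (by omega)
      have ht : TNM (mt (tp c) (fun p : Fin (s + 1) => x + (p : ℤ)) (fun p : Fin (s + 1) => y + (p : ℤ))) :=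
        h.tnm (strictMono_contig x _) (strictMono_contig y _)
          (fun p => by have := p.2; constructor <;> omega) (fun p => by have := p.2; constructor <;> omega)
      have h5 := ht.det_castSucc_ne_zero (by
        rw [det_contiguous c (s + 1) _ _ x y (fun _ => rfl) (fun _ => rfl)]; exact hD)
      rw [mt_submatrix, det_contiguous c s ((fun p : Fin (s + 1) => x + (p : ℤ)) ∘ Fin.castSucc)
        ((fun p : Fin (s + 1) => y + (p : ℤ)) ∘ Fin.castSucc) x y (fun _ => rfl) (fun _ => rfl)] at h5
      exact h5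
    · rw [le_antisymm hs' hge]; exact hD

/-- The combinatorial condition. -/
def Good (c : ℤ → ℝ) {s : ℕ} (I J : Fin s → ℤ) : Prop :=
  ∀ k l : Fin s, k ≤ l → ∃ t : ℤ, J k - I l + ((l : ℤ) - k) ≤ t ∧ t ≤ J l - I k - ((l : ℤ) - k) ∧
    D c ((l : ℕ) - k + 1) t ≠ 0

lemma Good.castSucc {c : ℤ → ℝ} {s : ℕ} {I J : Fin (s + 1) → ℤ} (h : Good c I J) :
    Good c (I ∘ Fin.castSucc) (J ∘ Fin.castSucc) := by
  intro k l hkl
  exact h k.castSucc l.castSucc hkl

lemma Good.succ {c : ℤ → ℝ} {s : ℕ} {I J : Fin (s + 1) → ℤ} (h : Good c I J) :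
    Good c (I ∘ Fin.succ) (J ∘ Fin.succ) := by
  intro k l hkl
  obtain ⟨t, h1, h2, h3⟩ := h k.succ l.succ (Fin.succ_le_succ_iff.2 hkl)
  simp only [Fin.val_succ] at h1 h2 h3
  push_cast at h1 h2
  refine ⟨t, ?_, ?_, ?_⟩
  · simp only [Function.comp_apply]; omega
  · simp only [Function.comp_apply]; omega
  · convert h3 using 2; omega

/-- Sufficiency. -/
theorem det_ne_zero_of_good {c : ℤ → ℝ} {x0 x1 y0 y1 : ℤ} (h : TNB (tp c) x0 x1 y0 y1) :
    ∀ {s : ℕ} (I J : Fin s → ℤ), StrictMono I → StrictMono J → (∀ p, x0 ≤ I p ∧ I p ≤ x1) →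
      (∀ q, y0 ≤ J q ∧ J q ≤ y1) → Good c I J → (mt (tp c) I J).det ≠ 0 := by
  intro s
  induction s with
  | zero => intro I J _ _ _ _ _; simp
  | succ s ih =>
    intro I J hI hJ hx hy hG h0
    have h1 := ih (I ∘ Fin.castSucc) (J ∘ Fin.castSucc) (hI.comp Fin.strictMono_castSucc)
      (hJ.comp Fin.strictMono_castSucc) (fun p => hx _) (fun q => hy _) hG.castSucc
    have h2 := ih (I ∘ Fin.succ) (J ∘ Fin.succ) (hI.comp Fin.strictMono_succ)
      (hJ.comp Fin.strictMono_succ) (fun p => hx _) (fun q => hy _) hG.succ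
    obtain ⟨t, ht1, ht2, ht3⟩ := hG 0 (Fin.last s) (Fin.zero_le _)
    simp only [Fin.val_last, Fin.val_zero, Nat.sub_zero, Nat.cast_zero, sub_zero] at ht1 ht2 ht3
    have gI := gap_zero_last hI
    have gJ := gap_zero_last hJ
    apply ht3
    set x := max (I 0) (J 0 - t) with hx'
    have hx1 : I 0 ≤ x := le_max_left _ _
    have hx2 : J 0 - t ≤ x := le_max_right _ _
    have hx3 : x ≤ I (Fin.last s) - s := max_le (by omega) (by omega)
    have hx4 : x ≤ J (Fin.last s) - t - s := max_le (by omega) (by omega)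
    have := block_minors_zero (tp c) I J hI hJ
      (h.mono (hx 0).1 (hx _).2 (hy 0).1 (hy _).2) h0 h1 h2 (fun p => x + (p : ℤ))
      (fun q => x + t + (q : ℤ))
      (fun p => by have := p.2; constructor <;> omega)
      (fun p => by have := p.2; constructor <;> omega)
    rw [det_contiguous c (s + 1) _ _ x (x + t) (fun _ => rfl) (fun _ => rfl)] at this
    rw [← this]
    congr 1
    ring

/-- If all contiguous `s`-minors in a TN block are nonzero then all `s`-minors are. -/
lemma det_ne_zero_of_contiguous {c : ℤ → ℝ} {x0 x1 y0 y1 : ℤ} (h : TNB (tp c) x0 x1 y0 y1)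
    {s : ℕ} (hD : ∀ t, y0 - x1 + (s - 1) ≤ t → t ≤ y1 - x0 - (s - 1) → D c s t ≠ 0)
    (I J : Fin s → ℤ) (hI : StrictMono I) (hJ : StrictMono J)
    (hx : ∀ p, x0 ≤ I p ∧ I p ≤ x1) (hy : ∀ q, y0 ≤ J q ∧ J q ≤ y1) :
    (mt (tp c) I J).det ≠ 0 := by
  rcases s with _ | s
  · simp
  refine det_ne_zero_of_good h I J hI hJ hx hy ?_
  intro k l hkl
  have a1 := gap_le hI hkl
  have a2 := gap_le hJ hkl
  have a3 := gap_le hI (Fin.le_last l)
  have a4 := gap_le hJ (Fin.zero_le k)
  have a5 := gap_le hI (Fin.zero_le k)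
  have a6 := gap_le hJ (Fin.le_last l)
  have a7 := hx 0
  have a8 := hx (Fin.last s)
  have a9 := hy 0
  have a10 := hy (Fin.last s)
  simp only [Fin.val_last, Fin.val_zero, Nat.cast_zero, sub_zero] at a3 a4 a5 a6
  have hkl' : (k : ℕ) ≤ l := hkl
  have hl' := l.2
  set t := J k - I l + ((l : ℤ) - k) with ht
  push_cast at hD
  have hDt := hD t (by omega) (by omega)
  refine ⟨t, le_refl _, by omega, ?_⟩
  -- a contiguous block of size `s + 1` on the diagonal `t` inside the box
  set x := max x0 (y0 - t) with hx'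
  have hx1 : x0 ≤ x := le_max_left _ _
  have hx2 : y0 - t ≤ x := le_max_right _ _
  have hx3 : x ≤ x1 - s := max_le (by omega) (by omega)
  have hx4 : x ≤ y1 - t - s := max_le (by omega) (by omega)
  have e : t = (x + t) - x := by ring
  rw [e]
  exact D_ne_zero_of_le h (s := s + 1) (x := x) (y := x + t) hx1 (by push_cast; omega) (by omega)
    (by push_cast; omega) (by rw [← e]; exact hDt) _ (by omega)

/-- Necessity. -/
theorem good_of_det_ne_zero {c : ℤ → ℝ} {x0 x1 y0 y1 : ℤ} (h : TNB (tp c) x0 x1 y0 y1) :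
    ∀ {s : ℕ} (I J : Fin s → ℤ), StrictMono I → StrictMono J → (∀ p, x0 ≤ I p ∧ I p ≤ x1) →
      (∀ q, y0 ≤ J q ∧ J q ≤ y1) → (mt (tp c) I J).det ≠ 0 → Good c I J := by
  intro s
  induction s with
  | zero => intro I J _ _ _ _ _ k; exact k.elim0
  | succ s ih =>
    intro I J hI hJ hx hy hdet
    have htnm : TNM (mt (tp c) I J) := h.tnm hI hJ hx hy
    have g1 := ih (I ∘ Fin.castSucc) (J ∘ Fin.castSucc) (hI.comp Fin.strictMono_castSucc)
      (hJ.comp Fin.strictMono_castSucc) (fun p => hx _) (fun q => hy _)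
      (htnm.det_castSucc_ne_zero hdet)
    have g2 := ih (I ∘ Fin.succ) (J ∘ Fin.succ) (hI.comp Fin.strictMono_succ)
      (hJ.comp Fin.strictMono_succ) (fun p => hx _) (fun q => hy _)
      (htnm.det_succ_ne_zero hdet)
    intro k l hkl
    by_cases hl : l = Fin.last s
    · by_cases hk : k = 0
      · subst hl hk
        simp only [Fin.val_last, Fin.val_zero, Nat.sub_zero, Nat.cast_zero, sub_zero]
        rcases s with _ | s
        · refine ⟨J 0 - I 0, by simp, by simp, ?_⟩
          rw [D_one]
          simpa [tp] using hdet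
        · -- main case
          obtain ⟨t0, ht0, ht0', hDt0⟩ := g1 0 (Fin.last s) (Fin.zero_le _)
          simp only [Fin.val_last, Fin.val_zero, Nat.sub_zero, Nat.cast_zero, sub_zero,
            Function.comp_apply] at ht0 ht0' hDt0
          have b1 := gap_le hI (p := (Fin.last s).castSucc) (q := Fin.last (s + 1)) (Fin.le_last _)
          have b2 := gap_le hJ (p := (Fin.last s).castSucc) (q := Fin.last (s + 1)) (Fin.le_last _)
          simp only [Fin.val_last, Fin.val_castSucc] at b1 b2
          push_cast at b1 b2 ⊢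
          have e0 : (Fin.castSucc (0 : Fin (s + 1))) = 0 := rfl
          rw [e0] at ht0 ht0'
          by_contra hcon
          push Not at hcon
          set lo := J 0 - I (Fin.last (s + 1)) + (s + 1) with hlo
          set hi := J (Fin.last (s + 1)) - I 0 - (s + 1) with hhi
          have hz : ∀ t, lo ≤ t → t ≤ hi → D c (s + 2) t = 0 := fun t h1 h2 => hcon t h1 h2
          -- propagate upwards and downwards
          have up : ∀ n : ℕ, t0 + n ≤ hi + 1 → D c (s + 1) (t0 + n) ≠ 0 ∧
              (t0 + n ≤ hi → D c (s + 1) (t0 + n - 1) ≠ 0 ∧ D c (s + 1) (t0 + n + 1) ≠ 0) := by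
            have aux : ∀ t, lo ≤ t → t ≤ hi → D c (s + 1) t ≠ 0 →
                D c (s + 1) (t - 1) ≠ 0 ∧ D c (s + 1) (t + 1) ≠ 0 := by
              intro t h1 h2 h3
              have h4 := tsystem c s t
              rw [hz t h1 h2, zero_mul, zero_add] at h4
              have h5 : D c (s + 1) (t + 1) * D c (s + 1) (t - 1) ≠ 0 := by
                rw [← h4]; exact mul_ne_zero h3 h3
              exact ⟨right_ne_zero_of_mul h5, left_ne_zero_of_mul h5⟩
            intro n
            induction n with
            | zero =>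
              intro _
              simp only [Nat.cast_zero, add_zero]
              exact ⟨hDt0, fun h => aux t0 (by omega) h hDt0⟩
            | succ n ihn =>
              intro h1
              push_cast at h1 ⊢
              have h2 := ihn (by omega)
              have h3 := (h2.2 (by omega)).2
              have h4 : D c (s + 1) (t0 + (n + 1)) ≠ 0 := by
                rw [← add_assoc]; exact h3
              exact ⟨h4, fun h => aux _ (by omega) (by omega) h4⟩
          have down : ∀ n : ℕ, lo - 1 ≤ t0 - n → D c (s + 1) (t0 - n) ≠ 0 := by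
            have aux : ∀ t, lo ≤ t → t ≤ hi → D c (s + 1) t ≠ 0 → D c (s + 1) (t - 1) ≠ 0 := by
              intro t h1 h2 h3
              have h4 := tsystem c s t
              rw [hz t h1 h2, zero_mul, zero_add] at h4
              have h5 : D c (s + 1) (t + 1) * D c (s + 1) (t - 1) ≠ 0 := by
                rw [← h4]; exact mul_ne_zero h3 h3
              exact right_ne_zero_of_mul h5
            intro n
            induction n with
            | zero => intro _; simpa using hDt0
            | succ n ihn =>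
              intro h1
              push_cast at h1 ⊢
              have h3 := aux _ (by omega) (by omega) (ihn (by omega))
              rw [← sub_sub]; exact h3
          have hall : ∀ t, lo - 1 ≤ t → t ≤ hi + 1 → D c (s + 1) t ≠ 0 := by
            intro t h1 h2
            rcases le_total t0 t with h3 | h3
            · have := (up (t - t0).toNat (by omega)).1
              rwa [show t0 + ((t - t0).toNat : ℤ) = t by omega] at this
            · have := down (t0 - t).toNat (by omega)
              rwa [show t0 - ((t0 - t).toNat : ℤ) = t by omega] at this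
          -- the box spanned by the minor
          have hbox : TNB (tp c) (I 0) (I (Fin.last (s + 1))) (J 0) (J (Fin.last (s + 1))) :=
            h.mono (hx 0).1 (hx _).2 (hy 0).1 (hy _).2
          have hsm : ∀ (A B : Fin (s + 1) → ℤ), StrictMono A → StrictMono B →
              (∀ p, I 0 ≤ A p ∧ A p ≤ I (Fin.last (s + 1))) →
              (∀ p, J 0 ≤ B p ∧ B p ≤ J (Fin.last (s + 1))) → (mt (tp c) A B).det ≠ 0 := by
            intro A B hA hB hA' hB'
            refine det_ne_zero_of_contiguous hbox ?_ A B hA hB hA' hB'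
            intro t h1 h2
            push_cast at h1 h2
            exact hall t (by omega) (by omega)
          apply hdet
          -- rows
          have hrows : ∀ L : Fin (s + 2) → ℤ, StrictMono L → J 0 ≤ L 0 →
              L (Fin.last (s + 1)) ≤ J (Fin.last (s + 1)) →
              (∀ x, I 0 ≤ x → x + (s + 1 : ℕ) ≤ I (Fin.last (s + 1)) →
                (mt (tp c) (fun p : Fin (s + 2) => x + (p : ℤ)) L).det = 0) →
              ∀ K : Fin (s + 2) → ℤ, StrictMono K → I 0 ≤ K 0 →
              K (Fin.last (s + 1)) ≤ I (Fin.last (s + 1)) → (mt (tp c) K L).det = 0 := by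
            intro L hL hL0 hL1 hb
            refine dispersion_induction (I 0) (I (Fin.last (s + 1)))
              (fun K => (mt (tp c) K L).det = 0) hb ?_
            intro ρ hρ hρ0 hρ1 k hk0 hkl hq1 hq2
            obtain ⟨f, g, hf, hg, hfg⟩ := three_term (mt (tp c) ρ L) k hk0 hkl
            simp only [mt_submatrix, Function.comp_id] at hfg
            rw [hq1, hq2, zero_mul, zero_mul, zero_add] at hfg
            rcases mul_eq_zero.1 hfg with h' | h'
            · exact h'
            · exfalso
              have bρ := strictMono_bounds hρ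
              have bL := strictMono_bounds hL
              refine hsm _ _ (hρ.comp (Fin.strictMono_castSucc.comp Fin.strictMono_succ))
                (hL.comp Fin.strictMono_succ) ?_ ?_ h'
              · intro p
                exact ⟨hρ0.trans (bρ _).1, (bρ _).2.trans hρ1⟩
              · intro p
                exact ⟨hL0.trans (bL _).1, (bL _).2.trans hL1⟩
          refine hrows J hJ le_rfl le_rfl ?_ I hI le_rfl le_rfl
          intro x hx0 hx1
          -- columns
          refine dispersion_induction (J 0) (J (Fin.last (s + 1)))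
            (fun L => (mt (tp c) (fun p : Fin (s + 2) => x + (p : ℤ)) L).det = 0) ?_ ?_ J hJ
            le_rfl le_rfl
          · intro y hy0 hy1
            rw [det_contiguous c (s + 2) _ _ x y (fun _ => rfl) (fun _ => rfl)]
            push_cast at hx1 hy1
            exact hz _ (by omega) (by omega)
          · intro τ hτ hτ0 hτ1 k hk0 hkl hq1 hq2
            set K : Fin (s + 2) → ℤ := fun p => x + (p : ℤ) with hK
            have hKm : StrictMono K := strictMono_contig x _
            obtain ⟨f, g, hf, hg, hfg⟩ := three_term (mt (fun x y => tp c y x) τ K) k hk0 hkl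
            simp only [mt_submatrix, Function.comp_id, mt_det_transpose] at hfg
            rw [hq1, hq2, zero_mul, zero_mul, zero_add] at hfg
            rcases mul_eq_zero.1 hfg with h' | h'
            · exact h'
            · exfalso
              have bτ := strictMono_bounds hτ
              refine hsm _ _ (hKm.comp Fin.strictMono_succ)
                (hτ.comp (Fin.strictMono_castSucc.comp Fin.strictMono_succ)) ?_ ?_ h'
              · intro p
                have := (Fin.succ p).2
                simp only [Function.comp_apply, hK]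
                push_cast at hx1
                constructor <;> omega
              · intro p
                exact ⟨hτ0.trans (bτ _).1, (bτ _).2.trans hτ1⟩
      · obtain ⟨k', rfl⟩ := Fin.exists_succ_eq.2 hk
        have hl0 : l ≠ 0 := by
          intro h; rw [h] at hkl
          exact absurd (le_antisymm hkl (Fin.zero_le _)) (Fin.succ_ne_zero _)
        obtain ⟨l', rfl⟩ := Fin.exists_succ_eq.2 hl0
        obtain ⟨t, h1, h2, h3⟩ := g2 k' l' (Fin.succ_le_succ_iff.1 hkl)
        simp only [Function.comp_apply] at h1 h2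
        refine ⟨t, ?_, ?_, ?_⟩
        · simp only [Fin.val_succ]; push_cast; omega
        · simp only [Fin.val_succ]; push_cast; omega
        · convert h3 using 2; simp only [Fin.val_succ]; omega
    · have hkl' : k ≠ Fin.last s := by
        intro h; rw [h] at hkl; exact hl (le_antisymm (Fin.le_last _) hkl)
      obtain ⟨l', rfl⟩ := Fin.exists_castSucc_eq.2 hl
      obtain ⟨k', rfl⟩ := Fin.exists_castSucc_eq.2 hkl'
      exact g1 k' l' hkl

end Pool.Agent.Helper54_Toeplitz
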