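import Pool.Agent.Helper54_Toeplitz.Det2

set_option autoImplicit false

namespace Pool.Agent.Helper54_Toeplitz

open Matrix

/-- All minors of a matrix are nonnegative. -/
def TNM {a b : ℕ} (M : Matrix (Fin a) (Fin b) ℝ) : Prop :=
  ∀ (k : ℕ) (f : Fin k → Fin a) (g : Fin k → Fin b), StrictMono f → StrictMono g →
    0 ≤ (M.submatrix f g).det

lemma TNM.det_nonneg {a : ℕ} {M : Matrix (Fin a) (Fin a) ℝ} (h : TNM M) : 0 ≤ M.det := by
  simpa using h a id id strictMono_id strictMono_id

/-- In a nonsingular TN matrix the leading principal minor of corank one is nonzero. -/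
lemma TNM.det_castSucc_ne_zero {s : ℕ} {M : Matrix (Fin (s + 1)) (Fin (s + 1)) ℝ} (h : TNM M)
    (hM : M.det ≠ 0) : (M.submatrix Fin.castSucc Fin.castSucc).det ≠ 0 := by
  rcases s with _ | s
  · simp
  intro hX
  let z : Fin (s + 2) → ℝ := fun q => (M.submatrix Fin.castSucc q.succAbove).det
  have hz : ∀ q, 0 ≤ z q := fun q =>
    h _ _ _ (Fin.strictMono_castSucc) (Fin.strictMono_succAbove q)
  have hzl : z (Fin.last (s + 1)) = 0 := by simp only [z, Fin.succAbove_last]; exact hX
  let x : Fin (s + 2) → ℝ := fun q => (-1) ^ (q : ℕ) * z q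
  let d : ℝ := ∑ q, M (Fin.last (s + 1)) q * x q
  have hdetd : M.det = (-1) ^ (s + 1) * d := by
    rw [det_succ_row M (Fin.last (s + 1)), Finset.mul_sum]
    refine Finset.sum_congr rfl fun q _ => ?_
    simp only [x, z, Fin.succAbove_last, Fin.val_last, pow_add]
    ring
  have hMx : M *ᵥ x = Pi.single (Fin.last (s + 1)) d := by
    funext p
    refine Fin.lastCases ?_ (fun p' => ?_) p
    · rw [Pi.single_eq_same]; rfl
    · rw [Pi.single_eq_of_ne (Fin.castSucc_lt_last p').ne]
      have h0 := minors_kernel (M.submatrix Fin.castSucc id) p'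
      have h1 : (M *ᵥ x) p'.castSucc = ∑ q : Fin (s + 2), M p'.castSucc q * x q := rfl
      rw [h1, ← h0]
      refine Finset.sum_congr rfl fun q _ => ?_
      simp only [x, z, submatrix_apply, id, submatrix_submatrix, Function.comp_id,
        Function.id_comp]
      ring
  have hdetpos : 0 < M.det := lt_of_le_of_ne h.det_nonneg hM.symm
  have hd : 0 < (-1) ^ (s + 1) * d := hdetd ▸ hdetpos
  obtain ⟨q0, hq0⟩ : ∃ q, z q ≠ 0 := by
    by_contra hcon
    push Not at hcon
    have : d = 0 := Finset.sum_eq_zero fun q _ => by simp [x, hcon q]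
    rw [this, mul_zero] at hd
    exact lt_irrefl _ hd
  have hq0l : q0 ≠ Fin.last (s + 1) := fun h => hq0 (h ▸ hzl)
  obtain ⟨q1, rfl⟩ := Fin.exists_castSucc_eq.2 hq0l
  have hzpos : 0 < z q1.castSucc := lt_of_le_of_ne (hz _) hq0.symm
  have hy : ∀ w : Fin (s + 2), (M.submatrix w.succAbove Fin.castSucc).det = 0 := by
    intro w
    by_cases hw : w = Fin.last (s + 1)
    · rw [hw, Fin.succAbove_last]; exact hX
    · have hlast : w.succAbove (Fin.last s) = Fin.last (s + 1) :=
        Fin.succAbove_ne_last_last hw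
      have h1 : (M.submatrix w.succAbove Fin.castSucc) *ᵥ (x ∘ Fin.castSucc) =
          Pi.single (Fin.last s) d := by
        funext p
        have h2 : ((M.submatrix w.succAbove Fin.castSucc) *ᵥ (x ∘ Fin.castSucc)) p =
            (M *ᵥ x) (w.succAbove p) := by
          change ∑ q : Fin (s + 1), M (w.succAbove p) q.castSucc * x q.castSucc =
            ∑ q : Fin (s + 2), M (w.succAbove p) q * x q
          rw [Fin.sum_univ_castSucc (fun q : Fin (s + 2) => M (w.succAbove p) q * x q)]
          simp [x, hzl]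
        rw [h2, hMx]
        by_cases hp : p = Fin.last s
        · rw [hp, hlast, Pi.single_eq_same, Pi.single_eq_same]
        · rw [Pi.single_eq_of_ne hp, Pi.single_eq_of_ne]
          rw [← hlast]
          exact fun h => hp (Fin.succAbove_right_injective h)
      have h2 := cramer_single _ _ _ _ h1 q1
      have h3 : 0 ≤ ((M.submatrix w.succAbove Fin.castSucc).submatrix (Fin.last s).succAbove
          q1.succAbove).det := by
        rw [submatrix_submatrix]
        exact h _ _ _ ((Fin.strictMono_succAbove _).comp (Fin.strictMono_succAbove _))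
          ((Fin.strictMono_castSucc).comp (Fin.strictMono_succAbove _))
      have h4 : 0 ≤ (M.submatrix w.succAbove Fin.castSucc).det :=
        h _ _ _ (Fin.strictMono_succAbove _) (Fin.strictMono_castSucc)
      set m3 := ((M.submatrix w.succAbove Fin.castSucc).submatrix (Fin.last s).succAbove
          q1.succAbove).det
      set m4 := (M.submatrix w.succAbove Fin.castSucc).det
      simp only [x, Function.comp_apply, Fin.val_castSucc, Fin.val_last, pow_add] at h2
      have hs : ((-1 : ℝ)) ^ (q1 : ℕ) * (-1) ^ (q1 : ℕ) = 1 := by rw [← mul_pow]; simp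
      have h5 : m4 * z q1.castSucc = -((-1) ^ (s + 1) * d * m3) := by
        rw [pow_succ]
        linear_combination (-1 : ℝ) ^ (q1 : ℕ) * h2 +
          (-(m4 * z q1.castSucc) + d * (-1) ^ s * m3) * hs
      have h6 : 0 ≤ (-1) ^ (s + 1) * d * m3 := mul_nonneg hd.le h3
      have h7 : 0 ≤ m4 * z q1.castSucc := mul_nonneg h4 hzpos.le
      have h8 : m4 * z q1.castSucc = 0 := by linarith
      rcases mul_eq_zero.1 h8 with h9 | h9
      · exact h9
      · exact absurd h9 hzpos.ne'
  apply hM
  rw [det_succ_column M (Fin.last (s + 1))]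
  refine Finset.sum_eq_zero fun w _ => ?_
  rw [Fin.succAbove_last, hy w, mul_zero]

lemma TNM.rev {a b : ℕ} {M : Matrix (Fin a) (Fin b) ℝ} (h : TNM M) :
    TNM (M.submatrix Fin.rev Fin.rev) := by
  intro k f g hf hg
  rw [submatrix_submatrix]
  have h1 := h k (Fin.rev ∘ f ∘ Fin.rev) (Fin.rev ∘ g ∘ Fin.rev)
    (fun p q hpq => by
      simp only [Function.comp_apply]
      exact Fin.rev_lt_rev.2 (hf (Fin.rev_lt_rev.2 hpq)))
    (fun p q hpq => by
      simp only [Function.comp_apply]
      exact Fin.rev_lt_rev.2 (hg (Fin.rev_lt_rev.2 hpq)))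
  have h2 : M.submatrix (Fin.rev ∘ f ∘ Fin.rev) (Fin.rev ∘ g ∘ Fin.rev) =
      (M.submatrix (Fin.rev ∘ f) (Fin.rev ∘ g)).submatrix Fin.revPerm Fin.revPerm := by
    ext p q; rfl
  rwa [h2, det_submatrix_equiv_self] at h1

/-- In a nonsingular TN matrix the trailing principal minor of corank one is nonzero. -/
lemma TNM.det_succ_ne_zero {s : ℕ} {M : Matrix (Fin (s + 1)) (Fin (s + 1)) ℝ} (h : TNM M)
    (hM : M.det ≠ 0) : (M.submatrix Fin.succ Fin.succ).det ≠ 0 := by
  have h1 : (M.submatrix Fin.rev Fin.rev).det = M.det := by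
    have : M.submatrix Fin.rev Fin.rev = M.submatrix Fin.revPerm Fin.revPerm := by
      ext p q; rfl
    rw [this, det_submatrix_equiv_self]
  have h2 := h.rev.det_castSucc_ne_zero (by rwa [h1])
  have h3 : ((M.submatrix Fin.rev Fin.rev).submatrix Fin.castSucc Fin.castSucc) =
      (M.submatrix Fin.succ Fin.succ).submatrix Fin.revPerm Fin.revPerm := by
    ext p q
    simp [Fin.rev_castSucc]
  rwa [h3, det_submatrix_equiv_self] at h2

end Pool.Agent.Helper54_Toeplitz
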